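import Pool.Agent.NH52.MB.Stm

/-!
# MB: basic facts on the data at a place
-/

set_option autoImplicit false
set_option linter.unusedSectionVars false

namespace Pool.Agent.NH52.MB

open Module

section det

variable {k V : Type} [Field k] [AddCommGroup V] [Module k V] [FiniteDimensional k V]

theorem dt_eq {σ : End k V} {U : Submodule k V} (h : ∀ x ∈ U, σ x ∈ U) :
    dt σ U = LinearMap.det (σ.restrict h) := by
  unfold dt
  rw [dif_pos h]

/-- the determinant on a stable subspace of a stable subspace and on the quotient -/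
theorem dt_quot {σ : End k V} {W W' : Submodule k V} (hle : W' ≤ W) (hW : ∀ x ∈ W, σ x ∈ W)
    (hW' : ∀ x ∈ W', σ x ∈ W') :
    ∃ hP : W'.submoduleOf W ≤ (W'.submoduleOf W).comap (σ.restrict hW),
      dt σ W = dt σ W' * LinearMap.det ((W'.submoduleOf W).mapQ (W'.submoduleOf W) (σ.restrict hW) hP) := by
  have hP : W'.submoduleOf W ≤ (W'.submoduleOf W).comap (σ.restrict hW) := by
    intro x hx
    rw [Submodule.mem_comap, Submodule.submoduleOf, Submodule.mem_comap]
    exact hW' _ hx
  refine ⟨hP, ?_⟩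
  rw [dt_eq hW, dt_eq hW', LinearMap.det_eq_det_mul_det (W'.submoduleOf W) (σ.restrict hW) hP]
  congr 1
  have e := Submodule.submoduleOfEquivOfLe hle
  rw [← LinearMap.det_conj ((σ.restrict hW).restrict hP) (Submodule.submoduleOfEquivOfLe hle)]
  congr 1

/-- a line as quotient -/
theorem dt_line {σ : End k V} {W W' : Submodule k V} (hle : W' ≤ W) (hW : ∀ x ∈ W, σ x ∈ W)
    (hW' : ∀ x ∈ W', σ x ∈ W') (hd : finrank k W = finrank k W' + 1) {β : k}
    (hβ : ∀ x ∈ W, σ x - β • x ∈ W') : dt σ W = β * dt σ W' := by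
  obtain ⟨hP, h⟩ := dt_quot hle hW hW'
  rw [h, mul_comm]
  congr 1
  have h1 : (W'.submoduleOf W).mapQ (W'.submoduleOf W) (σ.restrict hW) hP =
      β • (LinearMap.id : (W ⧸ W'.submoduleOf W) →ₗ[k] (W ⧸ W'.submoduleOf W)) := by
    apply LinearMap.ext
    intro x
    obtain ⟨x, rfl⟩ := Submodule.mkQ_surjective _ x
    rw [LinearMap.smul_apply, LinearMap.id_apply, Submodule.mkQ_apply, Submodule.mapQ_apply,
      ← Submodule.Quotient.mk_smul, Submodule.Quotient.eq]
    exact hβ _ x.2
  rw [h1, LinearMap.det_smul, LinearMap.det_id, mul_one]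
  have h2 : finrank k (W ⧸ W'.submoduleOf W) = 1 := by
    have h3 := Submodule.finrank_quotient_add_finrank (W'.submoduleOf W)
    have h4 : finrank k (W'.submoduleOf W) = finrank k W' :=
      (Submodule.submoduleOfEquivOfLe hle).finrank_eq
    omega
  rw [h2, pow_one]

end det

/-! ### the unipotent and the similitude -/

section uni

variable {k V : Type} [Field k] [AddCommGroup V] [Module k V]

/-- `E = ∑_{i < q} u ^ i` -/
noncomputable def EE (M : End k V) (q : ℕ) : End k V := ∑ i ∈ Finset.range q, (1 + M) ^ i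

variable {M σ : End k V} {q : ℕ}

theorem comm_E : Commute M (EE M q) := by
  unfold EE
  refine Commute.sum_right _ _ _ fun i _ => Commute.pow_right ?_ _
  exact (Commute.one_right M).add_right (Commute.refl M)

theorem M_E : M * EE M q = (1 + M) ^ q - 1 := by
  have h := mul_geom_sum (1 + M) q
  rw [add_sub_cancel_left] at h
  exact h

theorem M_sigma (h : (1 + M) * σ = σ * (1 + M) ^ q) : M * σ = σ * (M * EE M q) := by
  rw [M_E, mul_sub, mul_one, ← h, add_mul, one_mul, add_sub_cancel_left]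

theorem E_ker {x : V} (hx : M x = 0) : EE M q x = (q : k) • x := by
  have h1 : ∀ i : ℕ, ((1 + M) ^ i) x = x := by
    intro i
    induction i with
    | zero => rfl
    | succ i ih =>
      rw [pow_succ, Module.End.mul_apply, LinearMap.add_apply, hx, add_zero, Module.End.one_apply, ih]
  unfold EE
  rw [LinearMap.sum_apply, Finset.sum_congr rfl fun i _ => h1 i, Finset.sum_const, Finset.card_range,
    Nat.cast_smul_eq_nsmul]

theorem E_unit (hM : IsNilpotent M) (hq : (q : k) ≠ 0) : IsUnit (EE M q) := by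
  have h1 : ∀ i : ℕ, ∃ B : End k V, Commute M B ∧ (1 + M) ^ i = 1 + M * B := by
    intro i
    refine ⟨EE M i, comm_E, ?_⟩
    rw [M_E]
    abel
  choose B hB1 hB2 using h1
  have h2 : EE M q = algebraMap k (End k V) (q : k) + M * ∑ i ∈ Finset.range q, B i := by
    unfold EE
    rw [Finset.sum_congr rfl fun i _ => hB2 i, Finset.sum_add_distrib, Finset.sum_const,
      Finset.card_range, Finset.mul_sum, nsmul_one, map_natCast]
  have hc : Commute M (∑ i ∈ Finset.range q, B i) := Commute.sum_right _ _ _ fun i _ => hB1 i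
  rw [h2]
  refine IsNilpotent.isUnit_add_left_of_commute (hc.isNilpotent_mul_right hM)
    ((IsUnit.mk0 _ hq).map _) ?_
  exact Algebra.commutes' _ _ |>.symm

theorem M_pow_sigma (h : (1 + M) * σ = σ * (1 + M) ^ q) (b : ℕ) :
    M ^ b * σ = σ * (M ^ b * EE M q ^ b) := by
  induction b with
  | zero => simp
  | succ b ih =>
    have hc : Commute (M ^ b) (EE M q) := comm_E.pow_left b
    calc M ^ (b + 1) * σ = M * (M ^ b * σ) := by rw [pow_succ', mul_assoc]
      _ = M * σ * (M ^ b * EE M q ^ b) := by rw [ih, ← mul_assoc]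
      _ = σ * (M * (EE M q * M ^ b) * EE M q ^ b) := by rw [M_sigma h]; simp only [mul_assoc]
      _ = σ * (M ^ (b + 1) * EE M q ^ (b + 1)) := by
        rw [← hc.eq, pow_succ' M, pow_succ' (EE M q)]
        simp only [mul_assoc]

/-- `σ` preserves the ranges of the powers of `M` -/
theorem sigma_range (hM : IsNilpotent M) (hq : (q : k) ≠ 0) (h : (1 + M) * σ = σ * (1 + M) ^ q)
    (b : ℕ) {x : V} (hx : x ∈ LinearMap.range (M ^ b)) : σ x ∈ LinearMap.range (M ^ b) := by
  obtain ⟨y, rfl⟩ := hx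
  obtain ⟨U, hU⟩ := E_unit (q := q) hM hq
  have h1 : σ * M ^ b = M ^ b * (σ * (((U⁻¹ : (End k V)ˣ) : End k V)) ^ b) := by
    have h2 := M_pow_sigma h b
    have h3 : EE M q ^ b * ((U⁻¹ : (End k V)ˣ) : End k V) ^ b = 1 := by
      rw [← hU, ← Units.val_pow_eq_pow_val, ← Units.val_pow_eq_pow_val, ← Units.val_mul, inv_pow,
        mul_inv_cancel, Units.val_one]
    rw [← mul_assoc, h2, mul_assoc, mul_assoc, h3, mul_one]
  refine ⟨(σ * (((U⁻¹ : (End k V)ˣ) : End k V)) ^ b) y, ?_⟩
  have h2 := LinearMap.congr_fun h1 y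
  exact h2.symm

/-- `σ` preserves the kernels of the powers of `M` -/
theorem sigma_ker (h : (1 + M) * σ = σ * (1 + M) ^ q) (b : ℕ) {x : V}
    (hx : (M ^ b) x = 0) : (M ^ b) (σ x) = 0 := by
  have h1 := LinearMap.congr_fun (M_pow_sigma h b) x
  rw [Module.End.mul_apply, Module.End.mul_apply] at h1
  rw [h1]
  have hc : Commute (M ^ b) (EE M q ^ b) := (comm_E.pow_left b).pow_right b
  rw [hc.eq, Module.End.mul_apply, hx, map_zero, map_zero]

theorem sigma_ker1 (h : (1 + M) * σ = σ * (1 + M) ^ q) {x : V} (hx : M x = 0) : M (σ x) = 0 := by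
  have := sigma_ker h 1 (x := x) (by rw [pow_one]; exact hx)
  rwa [pow_one] at this

theorem E_pow_ker {x : V} (hx : M x = 0) (b : ℕ) : (EE M q ^ b) x = (q : k) ^ b • x := by
  induction b with
  | zero => simp
  | succ b ih => rw [pow_succ', Module.End.mul_apply, ih, map_smul, E_ker hx, smul_smul, pow_succ]

/-- `M ^ b (σ y) = q ^ b σ (M ^ b y)` if `M ^ (b + 1) y = 0` -/
theorem M_pow_sigma_apply (h : (1 + M) * σ = σ * (1 + M) ^ q) (b : ℕ) {y : V}
    (hy : (M ^ (b + 1)) y = 0) : (M ^ b) (σ y) = (q : k) ^ b • σ ((M ^ b) y) := by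
  have h1 := LinearMap.congr_fun (M_pow_sigma h b) y
  rw [Module.End.mul_apply, Module.End.mul_apply] at h1
  have hc : Commute (M ^ b) (EE M q ^ b) := (comm_E.pow_left b).pow_right b
  have h2 : M ((M ^ b) y) = 0 := by
    rw [← Module.End.mul_apply, ← pow_succ']
    exact hy
  rw [h1, hc.eq, Module.End.mul_apply, E_pow_ker h2, map_smul]

end uni

/-! ### the form -/

section form

variable {k V : Type} [Field k] [AddCommGroup V] [Module k V]
  {M σ : End k V} {J : V →ₗ[k] V →ₗ[k] k} {q : ℕ} {Q : k}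

/-- the inverse of the unipotent -/
theorem exists_inv (h : LD M σ J q Q) : ∃ u : End k V, (1 + M) * u = 1 ∧ u * (1 + M) = 1 := by
  obtain ⟨U, hU⟩ := h.dist.1.isUnit_one_add
  refine ⟨((U⁻¹ : (End k V)ˣ) : End k V), ?_, ?_⟩
  · rw [← hU, Units.mul_inv]
  · rw [← hU, Units.inv_mul]

/-- the adjoint of `M` -/
theorem exists_adj (h : LD M σ J q Q) : ∃ A : End k V, (∀ x y, J (M x) y = J x (A y)) ∧
    (∀ x y, J x (M y) = J (A x) y) ∧ (∀ b x, (M ^ b) x = 0 → (A ^ b) x = 0) ∧
    (∀ b x, (A ^ b) x ∈ LinearMap.range (M ^ b)) ∧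
    ∀ b x, (M ^ (b + 1)) x = 0 → (A ^ b) x = (-1 : k) ^ b • (M ^ b) x := by
  obtain ⟨u, hu1, hu2⟩ := exists_inv h
  have hA : u - 1 = -(u * M) := by
    have : u * M = 1 - u := by
      rw [← hu2, mul_add, mul_one, add_sub_cancel_left]
    rw [this]; abel
  have hcom : Commute u M := by
    have h1 : u * M = 1 - u := by rw [← hu2, mul_add, mul_one, add_sub_cancel_left]
    have h2 : M * u = 1 - u := by rw [← hu1, add_mul, one_mul, add_sub_cancel_left]
    exact h1.trans h2.symm
  have hux : ∀ x y, J ((1 + M) x) y = J x (u y) := by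
    intro x y
    have h1 := h.iso x (u y)
    rw [← Module.End.mul_apply (1 + M) u, hu1, Module.End.one_apply] at h1
    exact h1
  have hxu : ∀ x y, J x ((1 + M) y) = J (u x) y := by
    intro x y
    have h1 := h.iso (u x) y
    rw [← Module.End.mul_apply (1 + M) u, hu1, Module.End.one_apply] at h1
    exact h1
  have hpow : ∀ b : ℕ, (u - 1) ^ b = M ^ b * ((-1 : k) ^ b • u ^ b) := by
    intro b
    rw [hA, neg_pow, hcom.mul_pow, (hcom.pow_pow b b).eq]
    have e : ((-1 : End k V) ^ b) = ((-1 : k) ^ b) • (1 : End k V) := by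
      rcases Nat.even_or_odd b with hb | hb
      · rw [hb.neg_one_pow, hb.neg_one_pow, one_smul]
      · rw [hb.neg_one_pow, hb.neg_one_pow, neg_smul, one_smul]
    rw [e, smul_mul_assoc, one_mul, mul_smul_comm]
  have hpow' : ∀ b : ℕ, (u - 1) ^ b = ((-1 : k) ^ b • u ^ b) * M ^ b := by
    intro b
    rw [hpow, mul_smul_comm, smul_mul_assoc, (hcom.pow_pow b b).eq]
  have huk : ∀ (b : ℕ) (x : V), M x = 0 → (u ^ b) x = x := by
    intro b x hx
    have h1 : u x = x := by
      have h2 := LinearMap.congr_fun hu2 x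
      rw [Module.End.mul_apply, LinearMap.add_apply, hx, add_zero] at h2
      exact h2
    induction b with
    | zero => rfl
    | succ b ih => rw [pow_succ, Module.End.mul_apply, h1, ih]
  refine ⟨u - 1, ?_, ?_, ?_, ?_, ?_⟩
  · intro x y
    have h1 := hux x y
    rw [LinearMap.add_apply, Module.End.one_apply, map_add, LinearMap.add_apply] at h1
    rw [LinearMap.sub_apply, Module.End.one_apply, map_sub, ← h1]
    ring
  · intro x y
    have h1 := hxu x y
    rw [LinearMap.add_apply, Module.End.one_apply, map_add] at h1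
    rw [LinearMap.sub_apply, Module.End.one_apply, map_sub, LinearMap.sub_apply, ← h1]
    ring
  · intro b x hx
    rw [hpow', Module.End.mul_apply, hx, map_zero]
  · intro b x
    rw [hpow]
    exact ⟨_, rfl⟩
  · intro b x hx
    have h1 : M ((M ^ b) x) = 0 := by
      rw [← Module.End.mul_apply, ← pow_succ']
      exact hx
    rw [hpow', Module.End.mul_apply, LinearMap.smul_apply, huk b _ h1]

theorem adj_pow {A : End k V} (hA : ∀ x y, J (M x) y = J x (A y)) (b : ℕ) :
    ∀ x y, J ((M ^ b) x) y = J x ((A ^ b) y) := by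
  induction b with
  | zero => intro x y; rfl
  | succ b ih =>
    intro x y
    rw [pow_succ, Module.End.mul_apply, ih, hA, pow_succ', Module.End.mul_apply]

theorem adj_pow' {A : End k V} (hA : ∀ x y, J x (M y) = J (A x) y) (b : ℕ) :
    ∀ x y, J x ((M ^ b) y) = J ((A ^ b) x) y := by
  induction b with
  | zero => intro x y; rfl
  | succ b ih =>
    intro x y
    rw [pow_succ, Module.End.mul_apply, ih, hA, pow_succ', Module.End.mul_apply]

theorem ort1 (h : LD M σ J q Q) {b : ℕ} {x y : V} (hx : x ∈ LinearMap.range (M ^ b))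
    (hy : (M ^ b) y = 0) : J x y = 0 := by
  obtain ⟨A, hA1, -, hA3, -, -⟩ := exists_adj h
  obtain ⟨z, rfl⟩ := hx
  rw [adj_pow hA1, hA3 b y hy, map_zero]

theorem ort2 (h : LD M σ J q Q) {b : ℕ} {x y : V} (hx : x ∈ LinearMap.range (M ^ b))
    (hy : (M ^ b) y = 0) : J y x = 0 := by
  obtain ⟨A, -, hA2, hA3, -, -⟩ := exists_adj h
  obtain ⟨z, rfl⟩ := hx
  rw [adj_pow' hA2, hA3 b y hy, map_zero, LinearMap.zero_apply]

variable [FiniteDimensional k V]

theorem ort3 (h : LD M σ J q Q) {b : ℕ} {x : V} (hx : ∀ z, (M ^ b) z = 0 → J x z = 0) :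
    x ∈ LinearMap.range (M ^ b) := by
  obtain ⟨A, hA1, hA2, hA3, hA4, -⟩ := exists_adj h
  have h1 : J x ∈ (LinearMap.ker (M ^ b)).dualAnnihilator := by
    rw [Submodule.mem_dualAnnihilator]
    intro z hz
    exact hx z hz
  rw [← LinearMap.range_dualMap_eq_dualAnnihilator_ker] at h1
  obtain ⟨φ, hφ⟩ := h1
  have hinj : Function.Injective J := by
    rw [injective_iff_map_eq_zero]
    intro y hy
    exact h.nd y fun z => by rw [hy]; rfl
  have hsurj : Function.Surjective J :=
    (LinearMap.injective_iff_surjective_of_finrank_eq_finrank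
      (Subspace.dual_finrank_eq (K := k) (V := V)).symm).1 hinj
  obtain ⟨y, rfl⟩ := hsurj φ
  have h2 : x = (A ^ b) y := by
    apply hinj
    apply LinearMap.ext
    intro z
    rw [← adj_pow' hA2, ← hφ]
    rfl
  rw [h2]
  exact hA4 b y

/-- the key fact: nondegeneracy on the primitive parts -/
theorem prim (h : LD M σ J q Q) {b : ℕ} {y : V} (hy : (M ^ (b + 1)) y = 0)
    (hz : ∀ z, (M ^ (b + 1)) z = 0 → J y ((M ^ b) z) = 0) :
    (M ^ b) y ∈ LinearMap.range (M ^ (b + 1)) := by
  obtain ⟨A, -, hA2, -, -, hA5⟩ := exists_adj h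
  have h1 : (-1 : k) ^ b • (M ^ b) y ∈ LinearMap.range (M ^ (b + 1)) := by
    rw [← hA5 b y hy]
    refine ort3 h fun z hz' => ?_
    rw [← adj_pow' hA2]
    exact hz z hz'
  have h2 := (LinearMap.range (M ^ (b + 1))).smul_mem ((-1 : k) ^ b) h1
  rw [smul_smul, ← mul_pow, neg_mul_neg, one_mul, one_pow, one_smul] at h2
  exact h2

omit [FiniteDimensional k V] in
theorem flip (h : LD M σ J q Q) {b : ℕ} {x y : V} (hx : (M ^ (b + 1)) x = 0) :
    J x ((M ^ b) y) = (-1 : k) ^ b * J ((M ^ b) x) y := by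
  obtain ⟨A, -, hA2, -, -, hA5⟩ := exists_adj h
  rw [adj_pow' hA2, hA5 b x hx, map_smul, LinearMap.smul_apply, smul_eq_mul]

end form

/-! ### the kernel -/

section ker

variable {k V : Type} [Field k] [AddCommGroup V] [Module k V] [FiniteDimensional k V] {M : End k V}

/-- `K_b = ker M ∩ range (M ^ b)` -/
def KK (M : End k V) (b : ℕ) : Submodule k V := LinearMap.ker M ⊓ LinearMap.range (M ^ b)

omit [FiniteDimensional k V] in
theorem range_succ_le (b : ℕ) : LinearMap.range (M ^ (b + 1)) ≤ LinearMap.range (M ^ b) := by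
  rintro _ ⟨y, rfl⟩
  rw [pow_succ]
  exact ⟨M y, rfl⟩

omit [FiniteDimensional k V] in
theorem range_anti {b c : ℕ} (h : b ≤ c) : LinearMap.range (M ^ c) ≤ LinearMap.range (M ^ b) := by
  rintro _ ⟨y, rfl⟩
  obtain ⟨d, rfl⟩ := Nat.exists_eq_add_of_le h
  rw [pow_add]
  exact ⟨(M ^ d) y, rfl⟩

omit [FiniteDimensional k V] in
theorem KK_succ_le (b : ℕ) : KK M (b + 1) ≤ KK M b := inf_le_inf_left _ (range_succ_le b)

theorem KK_dim (b : ℕ) : finrank k (KK M b) + finrank k (LinearMap.range (M ^ (b + 1))) =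
    finrank k (LinearMap.range (M ^ b)) := by
  have h1 := LinearMap.finrank_range_add_finrank_ker (M.domRestrict (LinearMap.range (M ^ b)))
  have h2 : LinearMap.range (M.domRestrict (LinearMap.range (M ^ b))) =
      LinearMap.range (M ^ (b + 1)) := by
    ext x
    constructor
    · rintro ⟨⟨_, y, rfl⟩, rfl⟩
      refine ⟨y, ?_⟩
      rw [pow_succ']
      rfl
    · rintro ⟨y, rfl⟩
      refine ⟨⟨(M ^ b) y, y, rfl⟩, ?_⟩
      rw [pow_succ']
      rfl
  have h3 : finrank k (LinearMap.ker (M.domRestrict (LinearMap.range (M ^ b)))) =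
      finrank k (KK M b) := by
    rw [LinearMap.ker_domRestrict]
    have h4 : Submodule.comap (LinearMap.range (M ^ b)).subtype (LinearMap.ker M) =
        (KK M b).submoduleOf (LinearMap.range (M ^ b)) := by
      ext x
      exact ⟨fun h => ⟨h, x.2⟩, fun h => h.1⟩
    rw [h4]
    exact (Submodule.submoduleOfEquivOfLe inf_le_right).finrank_eq
  rw [h2, h3] at h1
  omega

theorem KK_le (hd : Dist M) (b : ℕ) : finrank k (KK M b) ≤ finrank k (KK M (b + 1)) + 1 := by
  have h1 := KK_dim (M := M) b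
  have h2 := KK_dim (M := M) (b + 1)
  have h3 := hd.2 b
  have e : b + 1 + 1 = b + 2 := rfl
  rw [e] at h2
  omega

/-- two elements of `K_b` -/
theorem KK_line (hd : Dist M) {b : ℕ} {κ : V} (hκ : κ ∈ KK M b) (hκ' : κ ∉ LinearMap.range (M ^ (b + 1)))
    {z : V} (hz : z ∈ KK M b) : ∃ c : k, z - c • κ ∈ KK M (b + 1) := by
  have h1 : KK M (b + 1) ⊔ Submodule.span k {κ} = KK M b := by
    apply Submodule.eq_of_le_of_finrank_le
    · refine sup_le (KK_succ_le b) ?_
      rw [Submodule.span_singleton_le_iff_mem]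
      exact hκ
    · have h2 : KK M (b + 1) < KK M (b + 1) ⊔ Submodule.span k {κ} := by
        refine lt_of_le_of_ne le_sup_left fun h3 => hκ' ?_
        have h4 : κ ∈ KK M (b + 1) := by
          rw [h3]
          exact Submodule.mem_sup_right (Submodule.mem_span_singleton_self κ)
        exact h4.2
      have h5 := Submodule.finrank_lt_finrank_of_lt h2
      have h6 := KK_le hd b
      omega
  rw [← h1, Submodule.mem_sup] at hz
  obtain ⟨y, hy, w, hw, rfl⟩ := hz
  obtain ⟨c, rfl⟩ := Submodule.mem_span_singleton.1 hw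
  exact ⟨c, by rwa [add_sub_cancel_right]⟩

end ker

end Pool.Agent.NH52.MB
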