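import Pool.Agent.NH52.MB.Stm

/-!
# Semisimple modules with the same traces are isomorphic (large characteristic)
-/

set_option autoImplicit false
set_option linter.unusedSectionVars false

namespace Pool.Agent.NH52.MB

open Module

namespace Bnl

variable {k A : Type} [Field k] [Ring A] [Algebra k A]

section one

variable {M N : Type} [AddCommGroup M] [Module k M] [Module A M] [IsScalarTower k A M]
  [AddCommGroup N] [Module k N] [Module A N] [IsScalarTower k A N]

theorem tr_congr (e : M ≃ₗ[A] N) (a : A) : tr k M a = tr k N a := by
  unfold tr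
  have h : Algebra.lsmul k k N a = (e.restrictScalars k).conj (Algebra.lsmul k k M a) := by
    ext x
    rw [LinearEquiv.conj_apply_apply]
    show a • x = e (a • e.symm x)
    rw [map_smul, e.apply_symm_apply]
  rw [h, LinearMap.trace_conj']

theorem tr_prod [FiniteDimensional k M] [FiniteDimensional k N] (a : A) :
    tr k (M × N) a = tr k M a + tr k N a := by
  unfold tr
  have h : Algebra.lsmul k k (M × N) a =
      (Algebra.lsmul k k M a).prodMap (Algebra.lsmul k k N a) := by
    ext x <;> rfl
  rw [h, LinearMap.trace_prodMap']

variable [FiniteDimensional k M] [FiniteDimensional k N] [IsSemisimpleModule A M]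
  [IsSemisimpleModule A N]

theorem hom_symm (h : ∀ f : M →ₗ[A] N, f = 0) (g : N →ₗ[A] M) : g = 0 := by
  obtain ⟨s, hs⟩ := IsSemisimpleModule.lifting_property (R := A) g.rangeRestrict
    g.surjective_rangeRestrict LinearMap.id
  obtain ⟨t, ht⟩ := IsSemisimpleModule.extension_property (R := A) (LinearMap.range g).subtype
    (LinearMap.range g).subtype_injective s
  have h1 : s = 0 := by rw [← ht, h t, LinearMap.zero_comp]
  rw [h1, LinearMap.comp_zero] at hs
  have h2 : LinearMap.range g = ⊥ := by
    rw [eq_bot_iff]
    rintro x hx
    have h3 := LinearMap.congr_fun hs ⟨x, hx⟩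
    exact (congrArg Subtype.val h3).symm
  exact LinearMap.range_eq_bot.1 h2

theorem hom_ne_zero [Nontrivial M] (hm : ∀ m : ℕ, 0 < m → m ≤ finrank k M → (m : k) ≠ 0)
    (htr : ∀ a : A, tr k M a = tr k N a) : ∃ f : M →ₗ[A] N, f ≠ 0 := by
  classical
  by_contra hcon
  push Not at hcon
  have hcon' : ∀ g : N →ₗ[A] M, g = 0 := fun g => hom_symm hcon g
  -- the projection
  have hf : ∀ (f : Module.End A (M × N)) (x : M) (y : N), (f (x, y)).1 = (f (x, 0)).1 ∧
      (f (x, 0)).2 = 0 := by
    intro f x y
    constructor
    · have h1 : f (x, y) = f (x, 0) + f (0, y) := by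
        rw [← map_add]
        simp
      have h2 := LinearMap.congr_fun (hcon' ((LinearMap.fst A M N).comp (f.comp
        (LinearMap.inr A M N)))) y
      have h3 : (f (0, y)).1 = 0 := h2
      rw [h1, Prod.fst_add, h3, add_zero]
    · exact LinearMap.congr_fun (hcon ((LinearMap.snd A M N).comp (f.comp
        (LinearMap.inl A M N)))) x
  let e : Module.End (Module.End A (M × N)) (M × N) :=
    { toFun := fun p => (p.1, 0)
      map_add' := fun p q => by simp
      map_smul' := fun f p => by
        obtain ⟨x, y⟩ := p
        show ((f (x, y)).1, (0 : N)) = f (x, 0)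
        rw [(hf f x y).1]
        exact Prod.ext rfl (hf f x y).2.symm }
  have hss : IsSemisimpleModule A (M × N) := by
    have h1 : IsSemisimpleModule A (LinearMap.range (LinearMap.inl A M N)) :=
      IsSemisimpleModule.congr (LinearEquiv.ofInjective (LinearMap.inl A M N)
        LinearMap.inl_injective).symm
    have h2 : IsSemisimpleModule A (LinearMap.range (LinearMap.inr A M N)) :=
      IsSemisimpleModule.congr (LinearEquiv.ofInjective (LinearMap.inr A M N)
        LinearMap.inr_injective).symm
    have h3 := IsSemisimpleModule.sup h1 h2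
    rw [LinearMap.sup_range_inl_inr] at h3
    exact IsSemisimpleModule.congr Submodule.topEquiv.symm
  let b := Module.finBasis k (M × N)
  obtain ⟨a, ha⟩ := jacobson_density (R := A) e (Finset.univ.image b)
  have ha' : ∀ p : M × N, a • p = (p.1, 0) := by
    intro p
    have h1 : Algebra.lsmul k k (M × N) a = (LinearMap.inl k M N).comp (LinearMap.fst k M N) := by
      refine b.ext fun i => ?_
      have h2 := ha (b i) (Finset.mem_image_of_mem _ (Finset.mem_univ _))
      exact h2.symm
    exact LinearMap.congr_fun h1 p
  have h1 : Algebra.lsmul k k M a = 1 := by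
    ext x
    have h2 := congrArg Prod.fst (ha' (x, 0))
    exact h2
  have h2 : Algebra.lsmul k k N a = 0 := by
    ext x
    have h3 := congrArg Prod.snd (ha' (0, x))
    exact h3
  have h3 := htr a
  unfold tr at h3
  rw [h1, h2, map_zero, LinearMap.trace_one] at h3
  exact hm _ (Module.finrank_pos (R := k) (M := M)) le_rfl h3

end one

/-- **Semisimple modules with the same traces are isomorphic.** -/
theorem iso_of_tr : ∀ (d : ℕ) (M N : Type) [AddCommGroup M] [Module k M]
    [Module A M] [IsScalarTower k A M] [AddCommGroup N] [Module k N] [Module A N]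
    [IsScalarTower k A N] [FiniteDimensional k M] [FiniteDimensional k N] [IsSemisimpleModule A M]
    [IsSemisimpleModule A N], (∀ m : ℕ, 0 < m → m ≤ d → (m : k) ≠ 0) → finrank k M = d →
      finrank k N = d → (∀ a : A, tr k M a = tr k N a) → Nonempty (M ≃ₗ[A] N) := by
  intro d
  induction d using Nat.strong_induction_on with
  | _ d ih =>
    intro M N _ _ _ _ _ _ _ _ _ _ _ _ hm hd hd' htr
    rcases subsingleton_or_nontrivial M with hM | hM
    · have h0 : finrank k M = 0 := Module.finrank_zero_of_subsingleton
      have hN : Subsingleton N := Module.finrank_zero_iff.1 (hd'.trans (hd.symm.trans h0))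
      exact ⟨LinearEquiv.ofBijective (0 : M →ₗ[A] N)
        ⟨fun x y _ => Subsingleton.elim _ _, fun y => ⟨0, Subsingleton.elim _ _⟩⟩⟩
    · obtain ⟨f, hf⟩ := hom_ne_zero (k := k) (fun m h1 h2 => hm m h1 (hd ▸ h2)) htr
      obtain ⟨K', hK'⟩ := exists_isCompl (LinearMap.ker f)
      obtain ⟨C, hC⟩ := exists_isCompl (LinearMap.range f)
      have hfd : ∀ K : Submodule A M, FiniteDimensional k K := fun K =>
        FiniteDimensional.of_injective (K.subtype.restrictScalars k) K.subtype_injective
      have hfd' : ∀ K : Submodule A N, FiniteDimensional k K := fun K =>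
        FiniteDimensional.of_injective (K.subtype.restrictScalars k) K.subtype_injective
      have := hfd (LinearMap.ker f)
      have := hfd K'
      have := hfd' (LinearMap.range f)
      have := hfd' C
      -- the isomorphism of the complements
      have e₁ : K' ≃ₗ[A] LinearMap.range f :=
        (Submodule.quotientEquivOfIsCompl _ _ hK').symm.trans f.quotKerEquivRange
      have e₂ := Submodule.prodEquivOfIsCompl _ _ hK'
      have e₃ := Submodule.prodEquivOfIsCompl _ _ hC
      have h1 : ∀ a : A, tr k (LinearMap.ker f) a = tr k C a := by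
        intro a
        have h2 := tr_congr (k := k) e₂ a
        have h3 := tr_congr (k := k) e₃ a
        rw [tr_prod] at h2 h3
        have h4 := tr_congr (k := k) e₁ a
        have h5 := htr a
        rw [← h2, ← h3, h4, add_comm] at h5
        exact add_left_cancel h5
      have hdim : finrank k C = finrank k (LinearMap.ker f) := by
        have h2 := (e₂.restrictScalars k).finrank_eq
        have h3 := (e₃.restrictScalars k).finrank_eq
        have h4 := (e₁.restrictScalars k).finrank_eq
        rw [Module.finrank_prod] at h2 h3
        omega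
      have h2 : finrank k (LinearMap.ker f) < d := by
        rw [← hd]
        have h3 : (LinearMap.ker f).restrictScalars k ≠ ⊤ := by
          intro h4
          apply hf
          ext x
          have h5 : x ∈ (LinearMap.ker f).restrictScalars k := by
            rw [h4]
            exact Submodule.mem_top
          exact h5
        exact Submodule.finrank_lt h3
      obtain ⟨e₄⟩ := ih _ h2 (LinearMap.ker f) C (fun m h3 h4 => hm m h3 (h4.trans h2.le)) rfl
        hdim h1
      exact ⟨e₂.symm.trans ((LinearEquiv.prodCongr e₄ e₁).trans
        ((LinearEquiv.prodComm A _ _).trans e₃))⟩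

end Bnl

/-- **MB-6.** -/
theorem t_BNL : S_BNL := fun _ _ _ _ _ X Y _ _ _ _ _ _ _ _ _ _ _ _ hm hd htr =>
  Bnl.iso_of_tr _ X Y hm rfl hd.symm htr

end Pool.Agent.NH52.MB
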