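import Pool.Agent.NH52.SF.FinG

/-!
# Multiplicity-free degeneration over a number field
-/

set_option autoImplicit false

namespace Pool.Agent.NH52.MB

open Module Polynomial NumberField Pool.Agent.Y800 Pool.Agent.R390.SF Pool.Agent.NH52.SF

/-- The representation `ρ` has multiplicity-free degeneration at the place of `F` below `P`: for a
geometric Frobenius element `σ` and an element `g` of the inertia group (a generator of its tame
quotient) with `ρ(g) ρ(σ) = ρ(σ) ρ(g) ^ q`, where `q` is the number of the elements of the residue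
field, `ρ(g)` is unipotent and has at most one Jordan block of each size. (The number of the Jordan
blocks of size `m + 1` of the nilpotent matrix `N` is `rank N ^ m - 2 rank N ^ (m + 1) +
rank N ^ (m + 2)`.) -/
def DistinctBlocksAt (F : SubFld ℚ) {k : Type} [Field k] {n : ℕ}
    (ρ : F.fixingSubgroup →* GL (Fin n) k) (P : Ideal ZBar) : Prop :=
  ∃ σ g : F.fixingSubgroup, IsGeomFrob (resCard F P) P σ ∧ InInertia P g ∧
    ρ g * ρ σ = ρ σ * ρ g ^ resCard F P ∧
    IsNilpotent ((ρ g : Matrix (Fin n) (Fin n) k) - 1) ∧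
    ∀ m : ℕ, (((ρ g : Matrix (Fin n) (Fin n) k) - 1) ^ m).rank +
      (((ρ g : Matrix (Fin n) (Fin n) k) - 1) ^ (m + 2)).rank ≤
        2 * (((ρ g : Matrix (Fin n) (Fin n) k) - 1) ^ (m + 1)).rank + 1

/-- The Frobenius polynomials have no isotropic relations which could be seen on `V_ℓ`: for every `d` with
`0 < 2 d ≤ n` and `w d [F : ℚ]` even there is a prime number `p ≠ ℓ` outside `S` which splits
completely in `F` such that the Frobenius polynomials at the places above `p` have no isotropic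
relation of size `d`. -/
def GenericAt {F : SubFld ℚ} {n : ℕ} (S : Finset ℕ) (w : ℕ) (T : IntegralSystem F n) (ℓ : ℕ) : Prop :=
  ∀ d : ℕ, 0 < d → 2 * d ≤ n → Even (w * d * finrank ℚ F) →
    ∃ (p : ℕ) (v : Fin (finrank ℚ F) → Ideal (𝓞 F)), p.Prime ∧ p ∉ S ∧ ℓ ≠ p ∧ SplitsInto F p v ∧
      ∀ m : ℕ, 0 < m → ¬ IsotropicRelation ℂ (fun i => T.poly (v i)) (p ^ w) d m

/-- `T` has multiplicity-free degeneration for the primes `ℓ` in `Λ`: for each `ℓ` in `Λ` the
representation `V_ℓ`, and for almost all `ℓ` in `Λ` also `T_ℓ / ℓ`, has multiplicity-free degeneration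
at all the places above a prime `p ≠ ℓ` in `S`; for `V_ℓ` it is also allowed that the Frobenius
polynomials have no isotropic relation. -/
structure MultFree {F : SubFld ℚ} {n : ℕ} (S : Finset ℕ) (w : ℕ) (Λ : Set ℕ)
    (T : IntegralSystem F n) : Prop where
  rational : ∀ (ℓ : ℕ) [Fact ℓ.Prime], ℓ ∈ Λ → (∃ p ∈ S, p.Prime ∧ ℓ ≠ p ∧
    ∀ P : Ideal ZBar, P.IsMaximal → (p : ZBar) ∈ P → DistinctBlocksAt F (T.rat ℓ) P) ∨
      GenericAt S w T ℓ
  residual : ∃ N : ℕ, ∀ (ℓ : ℕ) [Fact ℓ.Prime], ℓ ∈ Λ → N < ℓ → ∃ p ∈ S, p.Prime ∧ ℓ ≠ p ∧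
    ∀ P : Ideal ZBar, P.IsMaximal → (p : ZBar) ∈ P → DistinctBlocksAt F (T.res ℓ) P

end Pool.Agent.NH52.MB
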