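import Pool.Agent.NH52.MB.Base

/-!
# MB-1: the determinants on `U`, `U ∩ ker M` and `M U`
-/

set_option autoImplicit false
set_option linter.unusedSectionVars false

namespace Pool.Agent.NH52.MB

open Module Polynomial

theorem det_unip {k : Type} [Field k] {W : Type} [AddCommGroup W] [Module k W]
    [FiniteDimensional k W] {f : End k W} (h : IsNilpotent (f - 1)) : LinearMap.det f = 1 := by
  have h1 := h.charpoly_eq_X_pow_finrank
  have h2 := congrArg (Polynomial.eval (-1)) h1
  rw [LinearMap.eval_charpoly, eval_pow, eval_X] at h2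
  have h3 : algebraMap k (End k W) (-1) - (f - 1) = -f := by
    rw [map_neg, map_one]; abel
  have h4 : (-f : End k W) = (-1 : k) • f := by simp
  rw [h3, h4, LinearMap.det_smul] at h2
  have h5 : ((-1 : k)) ^ finrank k W ≠ 0 := pow_ne_zero _ (by simp)
  exact mul_left_cancel₀ h5 (by rw [h2, mul_one])

section

variable {k V : Type} [Field k] [AddCommGroup V] [Module k V] {M σ : End k V} {q : ℕ}

theorem E_nil (hM : IsNilpotent M) : IsNilpotent (EE M q - algebraMap k (End k V) (q : k)) := by
  have h1 : ∀ i : ℕ, ∃ B : End k V, Commute M B ∧ (1 + M) ^ i = 1 + M * B := by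
    intro i
    refine ⟨EE M i, comm_E, ?_⟩
    rw [M_E]
    abel
  choose B hB1 hB2 using h1
  have h2 : EE M q = algebraMap k (End k V) (q : k) + M * ∑ i ∈ Finset.range q, B i := by
    unfold EE
    rw [Finset.sum_congr rfl fun i _ => hB2 i, Finset.sum_add_distrib, Finset.sum_const,
      Finset.card_range, Finset.mul_sum, nsmul_one, map_natCast]
  have hc : Commute M (∑ i ∈ Finset.range q, B i) := Commute.sum_right _ _ _ fun i _ => hB1 i
  rw [h2, add_sub_cancel_left]
  exact hc.isNilpotent_mul_right hM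

theorem E_mem {R : Submodule k V} (hR : ∀ x ∈ R, M x ∈ R) {x : V} (hx : x ∈ R) : EE M q x ∈ R := by
  have h1 : ∀ i : ℕ, ((1 + M) ^ i) x ∈ R := by
    intro i
    induction i with
    | zero => exact hx
    | succ i ih =>
      rw [pow_succ', Module.End.mul_apply, LinearMap.add_apply, Module.End.one_apply]
      exact R.add_mem ih (hR _ ih)
  unfold EE
  rw [LinearMap.sum_apply]
  exact R.sum_mem fun i _ => h1 i

variable [FiniteDimensional k V]

theorem det_E (hM : IsNilpotent M) (hq : (q : k) ≠ 0) {R : Submodule k V}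
    (hR : ∀ x ∈ R, M x ∈ R) :
    LinearMap.det ((EE M q).restrict (p := R) (q := R) fun _ hx => E_mem hR hx) =
      (q : k) ^ finrank k R := by
  set f : End k R := (EE M q).restrict (p := R) (q := R) fun _ hx => E_mem hR hx with hf
  have h1 : LinearMap.det ((q : k)⁻¹ • f) = 1 := by
    apply det_unip
    obtain ⟨m, hm⟩ := E_nil (q := q) hM
    refine ⟨m, ?_⟩
    have h2 : ∀ (j : ℕ) (x : R), (((((q : k)⁻¹ • f) - 1) ^ j) x : V) =
        ((q : k)⁻¹) ^ j • ((EE M q - algebraMap k (End k V) (q : k)) ^ j) x := by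
      intro j
      induction j with
      | zero => intro x; simp
      | succ j ih =>
        intro x
        rw [pow_succ, Module.End.mul_apply, ih, pow_succ ((q : k)⁻¹), pow_succ (EE M q - _),
          Module.End.mul_apply, mul_smul]
        congr 1
        rw [← map_smul]
        congr 1
        show (q : k)⁻¹ • (EE M q) (x : V) - (x : V) =
          (q : k)⁻¹ • ((EE M q) (x : V) - (algebraMap k (End k V) (q : k)) x)
        rw [smul_sub, Module.algebraMap_end_apply, smul_smul, inv_mul_cancel₀ hq, one_smul]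
    apply LinearMap.ext
    intro x
    apply Subtype.ext
    rw [h2, hm, LinearMap.zero_apply, smul_zero]
    rfl
  rw [LinearMap.det_smul] at h1
  have h2 : (q : k) ^ finrank k R * ((q : k)⁻¹ ^ finrank k R * LinearMap.det f) =
      LinearMap.det f := by
    rw [← mul_assoc, ← mul_pow, mul_inv_cancel₀ hq, one_pow, one_mul]
  rw [h1, mul_one] at h2
  exact h2.symm

end

theorem t_DET : S_DET := by
  intro k V _ _ _ _ M σ q hM hq hrel U hUM hUσ
  have hP1 : ∀ x ∈ U ⊓ LinearMap.ker M, σ x ∈ U ⊓ LinearMap.ker M := fun x hx =>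
    ⟨hUσ x hx.1, sigma_ker1 hrel hx.2⟩
  -- `E` is surjective on `U`
  have hEs : ∀ y ∈ U, ∃ y' ∈ U, EE M q y' = y := by
    intro y hy
    let f : End k U := (EE M q).restrict (p := U) (q := U) fun _ hx => E_mem hUM hx
    have hinj : Function.Injective f := by
      intro a b hab
      obtain ⟨e, he⟩ := E_unit (q := q) hM hq
      have h1 : EE M q (a : V) = EE M q (b : V) := congrArg Subtype.val hab
      have h2 : ∀ x : V, ((e⁻¹ : (End k V)ˣ) : End k V) (EE M q x) = x := by
        intro x
        rw [← he, ← Module.End.mul_apply, Units.inv_mul, Module.End.one_apply]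
      apply Subtype.ext
      rw [← h2 a, ← h2 b, h1]
    obtain ⟨y', hy'⟩ := LinearMap.injective_iff_surjective.1 hinj ⟨y, hy⟩
    exact ⟨y', y'.2, congrArg Subtype.val hy'⟩
  have hP2 : ∀ x ∈ U.map M, σ x ∈ U.map M := by
    rintro _ ⟨y, hy, rfl⟩
    obtain ⟨y', hy', rfl⟩ := hEs y hy
    refine ⟨σ y', hUσ y' hy', ?_⟩
    have h1 := LinearMap.congr_fun (M_sigma hrel) y'
    exact h1
  refine ⟨hP1, hP2, ?_⟩
  obtain ⟨hP, hdt⟩ := dt_quot (σ := σ) inf_le_left hUσ hP1
  rw [hdt, mul_assoc]
  congr 1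
  -- the quotient
  have hRM : ∀ x ∈ U.map M, M x ∈ U.map M := by
    rintro _ ⟨y, hy, rfl⟩
    exact ⟨M y, hUM y hy, rfl⟩
  let f : U →ₗ[k] U.map M := M.restrict (p := U) (q := U.map M) fun x hx => ⟨x, hx, rfl⟩
  have hf : Function.Surjective f := by
    rintro ⟨_, y, hy, rfl⟩
    exact ⟨⟨y, hy⟩, rfl⟩
  have hker : (U ⊓ LinearMap.ker M).submoduleOf U = LinearMap.ker f := by
    ext x
    constructor
    · intro hx
      apply Subtype.ext
      exact hx.2
    · intro hx
      exact ⟨x.2, congrArg Subtype.val hx⟩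
  let e : (U ⧸ (U ⊓ LinearMap.ker M).submoduleOf U) ≃ₗ[k] U.map M :=
    (Submodule.quotEquivOfEq _ _ hker).trans (f.quotKerEquivOfSurjective hf)
  rw [← LinearMap.det_conj _ e]
  have h1 : (e : (U ⧸ (U ⊓ LinearMap.ker M).submoduleOf U) →ₗ[k] U.map M) ∘ₗ
      (((U ⊓ LinearMap.ker M).submoduleOf U).mapQ ((U ⊓ LinearMap.ker M).submoduleOf U)
        (σ.restrict hUσ) hP) ∘ₗ (e.symm : U.map M →ₗ[k] (U ⧸ (U ⊓ LinearMap.ker M).submoduleOf U)) =
      (σ.restrict hP2) ∘ₗ ((EE M q).restrict (p := U.map M) (q := U.map M)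
        fun _ hx => E_mem hRM hx) := by
    apply LinearMap.ext
    intro y
    obtain ⟨x, rfl⟩ := hf y
    have h2 : e.symm (f x) = Submodule.Quotient.mk x := by
      rw [LinearEquiv.symm_apply_eq]
      rfl
    rw [LinearMap.comp_apply, LinearMap.comp_apply, LinearEquiv.coe_coe, LinearEquiv.coe_coe, h2,
      Submodule.mapQ_apply]
    apply Subtype.ext
    show M (σ x) = σ (EE M q (M x))
    have h3 := LinearMap.congr_fun (M_sigma hrel) (x : V)
    have h4 : M * EE M q = EE M q * M := comm_E.eq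
    rw [h4] at h3
    exact h3
  rw [h1]
  have h5 : LinearMap.det ((σ.restrict hP2) ∘ₗ ((EE M q).restrict (p := U.map M) (q := U.map M)
      fun _ hx => E_mem hRM hx)) = LinearMap.det (σ.restrict hP2) *
      LinearMap.det ((EE M q).restrict (p := U.map M) (q := U.map M) fun _ hx => E_mem hRM hx) :=
    LinearMap.det_comp _ _
  rw [h5, det_E hM hq hRM, dt_eq hP2, mul_comm]

end Pool.Agent.NH52.MB
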