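import Pool.Agent.NH52.MB.Base

/-!
# MB-2: the determinants on the stable subspaces of the kernel
-/

set_option autoImplicit false
set_option linter.unusedSectionVars false

namespace Pool.Agent.NH52.MB

open Module

section

variable {k V : Type} [Field k] [AddCommGroup V] [Module k V] [FiniteDimensional k V]
  {M σ : End k V} {J : V →ₗ[k] V →ₗ[k] k} {q : ℕ} {Q : k}

theorem sigma_KK (h : LD M σ J q Q) {b : ℕ} {x : V} (hx : x ∈ KK M b) : σ x ∈ KK M b := by
  refine ⟨?_, sigma_range h.dist.1 h.q0 h.rel b hx.2⟩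
  exact sigma_ker1 h.rel hx.1

/-- the eigenvalue on the primitive part -/
theorem eigen (h : LD M σ J q Q) {b : ℕ} {κ : V} (hκ : κ ∈ KK M b)
    (hκ' : κ ∉ LinearMap.range (M ^ (b + 1))) :
    ∃ β : k, β ^ 2 * (q : k) ^ b = Q ∧ σ κ - β • κ ∈ KK M (b + 1) := by
  obtain ⟨β, hβ⟩ := KK_line h.dist hκ hκ' (sigma_KK h hκ)
  refine ⟨β, ?_, hβ⟩
  obtain ⟨y, hy⟩ := hκ.2
  have hy1 : (M ^ (b + 1)) y = 0 := by
    rw [pow_succ', Module.End.mul_apply, hy]
    exact hκ.1
  -- the form is not zero
  have hne : J y κ ≠ 0 := by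
    intro h0
    apply hκ'
    rw [← hy]
    refine prim h hy1 fun z hz => ?_
    have h1 : (M ^ b) z ∈ KK M b := by
      refine ⟨?_, z, rfl⟩
      show M ((M ^ b) z) = 0
      rw [← Module.End.mul_apply, ← pow_succ']
      exact hz
    obtain ⟨c, hc⟩ := KK_line h.dist hκ hκ' h1
    have h2 := ort2 h hc.2 hy1
    rw [map_sub, map_smul, h0, smul_zero, sub_zero] at h2
    exact h2
  set κ' := σ κ - β • κ with hκ'def
  have e1 : σ κ = β • κ + κ' := by rw [hκ'def]; abel
  have hσy : (M ^ (b + 1)) (σ y) = 0 := sigma_ker h.rel (b + 1) hy1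
  -- J (σ y) (σ κ)
  have e2 : Q * J y κ = β * J (σ y) κ := by
    rw [← h.sim, e1, map_add, map_smul, ort2 h hβ.2 hσy, add_zero, smul_eq_mul]
  have e3 : J (σ y) κ = (q : k) ^ b * β * J y κ := by
    have e4 : J (σ y) κ = (-1 : k) ^ b * J ((M ^ b) (σ y)) y := by
      conv_lhs => rw [← hy]
      exact flip h hσy
    have e5 : J y κ = (-1 : k) ^ b * J κ y := by
      conv_lhs => rw [← hy]
      rw [flip h hy1, hy]
    rw [e4, M_pow_sigma_apply h.rel b hy1, hy, e1, map_smul, LinearMap.smul_apply, map_add,
      LinearMap.add_apply, ort1 h hβ.2 hy1, add_zero, map_smul, LinearMap.smul_apply, e5]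
    simp only [smul_eq_mul]
    ring
  have e6 : (β ^ 2 * (q : k) ^ b) * J y κ = Q * J y κ := by
    rw [e2, e3]; ring
  exact mul_right_cancel₀ hne e6

theorem pow_finrank (hM : IsNilpotent M) : M ^ finrank k V = 0 := by
  obtain ⟨m, hm⟩ := hM
  rcases le_total m (finrank k V) with h | h
  · exact pow_eq_zero_of_le h hm
  · have h1 : LinearMap.ker (M ^ finrank k V) = LinearMap.ker (M ^ m) :=
      (Module.End.ker_pow_eq_ker_pow_finrank_of_le h).symm
    rw [hm, LinearMap.ker_zero] at h1
    exact LinearMap.ker_eq_top.1 h1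

end

theorem t_EIG : S_EIG := by
  intro k V _ _ _ _ M σ J q Q h W hWK hWσ
  set n := finrank k V with hn
  have hMn : M ^ n = 0 := pow_finrank h.dist.1
  have hst : ∀ b, ∀ x ∈ W ⊓ LinearMap.range (M ^ b), σ x ∈ W ⊓ LinearMap.range (M ^ b) := by
    intro b x hx
    exact ⟨hWσ x hx.1, sigma_range h.dist.1 h.q0 h.rel b hx.2⟩
  have hle : ∀ b, W ⊓ LinearMap.range (M ^ b) ≤ KK M b := fun b x hx => ⟨hWK hx.1, hx.2⟩
  have key : ∀ j b : ℕ, b + j = n → dt σ (W ⊓ LinearMap.range (M ^ b)) ^ 2 *
      (q : k) ^ (∑ c ∈ Finset.range n,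
        finrank k ↥((W ⊓ LinearMap.range (M ^ b)) ⊓ LinearMap.range (M ^ (c + 1)))) =
      Q ^ finrank k ↥(W ⊓ LinearMap.range (M ^ b)) := by
    intro j
    induction j with
    | zero =>
      intro b hb
      rw [add_zero] at hb
      have h1 : W ⊓ LinearMap.range (M ^ b) = ⊥ := by
        rw [hb, hMn, LinearMap.range_zero, inf_bot_eq]
      rw [h1]
      have h2 : dt σ (⊥ : Submodule k V) = 1 := by
        have h3 : ∀ x ∈ (⊥ : Submodule k V), σ x ∈ (⊥ : Submodule k V) := by
          intro x hx
          rw [Submodule.mem_bot] at hx ⊢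
          rw [hx, map_zero]
        rw [dt_eq h3]
        exact LinearMap.det_eq_one_of_subsingleton _
      have h3 : ∀ c ∈ Finset.range n,
          finrank k ↥((⊥ : Submodule k V) ⊓ LinearMap.range (M ^ (c + 1))) = 0 := by
        intro c _
        rw [bot_inf_eq, finrank_bot]
      rw [h2, Finset.sum_eq_zero h3, finrank_bot, pow_zero, pow_zero, one_pow, one_mul]
    | succ j ih =>
      intro b hb
      have h1 := ih (b + 1) (by omega)
      set W0 := W ⊓ LinearMap.range (M ^ b) with hW0
      set W1 := W ⊓ LinearMap.range (M ^ (b + 1)) with hW1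
      have h10 : W1 ≤ W0 := inf_le_inf_left _ (range_succ_le b)
      by_cases heq : W1 = W0
      · rw [← heq]
        exact h1
      · -- an element
        obtain ⟨κ, hκ0, hκ1⟩ : ∃ κ ∈ W0, κ ∉ W1 := by
          by_contra hcon
          push Not at hcon
          exact heq (le_antisymm h10 hcon)
        have hκ' : κ ∉ LinearMap.range (M ^ (b + 1)) := fun h2 => hκ1 ⟨hκ0.1, h2⟩
        have hκK : κ ∈ KK M b := hle b hκ0
        obtain ⟨β, hβ, hβ'⟩ := eigen h hκK hκ'
        have hline : ∀ x ∈ W0, ∃ c : k, x - c • κ ∈ W1 := by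
          intro x hx
          obtain ⟨c, hc⟩ := KK_line h.dist hκK hκ' (hle b hx)
          exact ⟨c, W.sub_mem hx.1 (W.smul_mem c hκ0.1), hc.2⟩
        have hdim : finrank k W0 = finrank k W1 + 1 := by
          have h2 : W1 < W0 := lt_of_le_of_ne h10 heq
          have h3 := Submodule.finrank_lt_finrank_of_lt h2
          have h4 : W0 ≤ W1 ⊔ Submodule.span k {κ} := by
            intro x hx
            obtain ⟨c, hc⟩ := hline x hx
            rw [Submodule.mem_sup]
            exact ⟨_, hc, c • κ, Submodule.smul_mem _ _ (Submodule.mem_span_singleton_self κ),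
              sub_add_cancel _ _⟩
          have h5 := Submodule.finrank_mono h4
          have h6 := Submodule.finrank_add_le_finrank_add_finrank W1 (Submodule.span k {κ})
          have h8 : κ ≠ 0 := fun h0 => hκ1 (by rw [h0]; exact W1.zero_mem)
          have h7 := finrank_span_singleton (K := k) h8
          omega
        have hd := dt_line h10 (hst b) (hst (b + 1)) hdim (β := β) (by
          intro x hx
          obtain ⟨c, hc⟩ := hline x hx
          have h2 : σ x - β • x = c • (σ κ - β • κ) + (σ (x - c • κ) - β • (x - c • κ)) := by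
            simp only [map_sub, map_smul, smul_sub, smul_comm β c]
            abel
          rw [h2]
          refine W1.add_mem (W1.smul_mem c ?_) (W1.sub_mem (hst (b + 1) _ hc) (W1.smul_mem β hc))
          exact ⟨W.sub_mem (hWσ κ hκ0.1) (W.smul_mem β hκ0.1), hβ'.2⟩)
        have hsum : ∑ c ∈ Finset.range n, finrank k ↥(W0 ⊓ LinearMap.range (M ^ (c + 1))) =
            ∑ c ∈ Finset.range n, finrank k ↥(W1 ⊓ LinearMap.range (M ^ (c + 1))) + b := by
          have h2 : ∀ c ∈ Finset.range n, finrank k ↥(W0 ⊓ LinearMap.range (M ^ (c + 1))) =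
              finrank k ↥(W1 ⊓ LinearMap.range (M ^ (c + 1))) + if c < b then 1 else 0 := by
            intro c _
            split_ifs with hcb
            · have h3 : W0 ⊓ LinearMap.range (M ^ (c + 1)) = W0 :=
                inf_eq_left.2 (inf_le_right.trans (range_anti hcb))
              have h4 : W1 ⊓ LinearMap.range (M ^ (c + 1)) = W1 :=
                inf_eq_left.2 (inf_le_right.trans (range_anti (by omega)))
              rw [h3, h4, hdim]
            · have h3 : W0 ⊓ LinearMap.range (M ^ (c + 1)) = W1 ⊓ LinearMap.range (M ^ (c + 1)) := by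
                apply le_antisymm
                · intro x hx
                  exact ⟨⟨hx.1.1, range_anti (by omega) hx.2⟩, hx.2⟩
                · exact inf_le_inf_right _ h10
              rw [h3, add_zero]
          rw [Finset.sum_congr rfl h2, Finset.sum_add_distrib, Finset.sum_boole]
          congr 1
          have h5 : Finset.filter (fun c => c < b) (Finset.range n) = Finset.range b := by
            ext c
            rw [Finset.mem_filter, Finset.mem_range, Finset.mem_range]
            omega
          rw [h5, Finset.card_range]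
          rfl
        rw [hd, hsum, hdim, pow_add, pow_succ Q, ← h1, ← hβ]
        ring
  have h1 := key n 0 (by omega)
  have h2 : W ⊓ LinearMap.range (M ^ 0) = W := by
    rw [pow_zero]
    exact inf_eq_left.2 fun x _ => ⟨x, rfl⟩
  rw [h2] at h1
  exact h1

end Pool.Agent.NH52.MB
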