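import Pool.Agent.NH52.MB.Noi

/-!
# Finiteness of the polarized systems with multiplicity-free degeneration
-/

set_option autoImplicit false
set_option linter.unusedSectionVars false

namespace Pool.Agent.NH52.MB

open Module Polynomial NumberField Pool.Agent.Y800 Pool.Agent.R390.SF Pool.Agent.NH52.SF
open Pool.Agent.R390.SF.IntegralSystem
open Pool.Agent.Y126.SH (chi exists_reps)

attribute [local instance] Subgroup.fintypeQuotientOfFiniteIndex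

section single

variable {F : SubFld ℚ} {n : ℕ} {S S' : Finset ℕ} {w : ℕ} {T : IntegralSystem F n} {Λ : Set ℕ}

variable [hF : FiniteDimensional ℚ F]

theorem noiso_rat (hL : S_LIN) (hT : PolSystem S S' w T) (hm : MultFree S w Λ T) {ℓ : ℕ}
    [hℓ : Fact ℓ.Prime] (hΛ : ℓ ∈ Λ) :
    ∃ J : Matrix (Fin n) (Fin n) ℚ_[ℓ], Equi (T.rat ℓ) J ∧ NoIso (T.rat ℓ) J := by
  obtain ⟨J, hJ⟩ := hT.polarization ℓ
  have hdet : (J.map (algebraMap ℤ_[ℓ] ℚ_[ℓ])).det ≠ 0 := by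
    have h1 := qm_det J
    intro h0
    rw [show J.map (algebraMap ℤ_[ℓ] ℚ_[ℓ]) = qm J from rfl, h1] at h0
    exact hJ.nondegenerate ((FaithfulSMul.algebraMap_injective ℤ_[ℓ] ℚ_[ℓ])
      (h0.trans (map_zero _).symm))
  have heq : ∀ g : F.fixingSubgroup, (chik (algebraMap ℤ_[ℓ] ℚ_[ℓ]) g : ℚ_[ℓ]) ^ w •
      ((rep (algebraMap ℤ_[ℓ] ℚ_[ℓ]) T g : Matrix (Fin n) (Fin n) ℚ_[ℓ]).transpose *
        (J.map (algebraMap ℤ_[ℓ] ℚ_[ℓ])) * rep (algebraMap ℤ_[ℓ] ℚ_[ℓ]) T g) =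
          J.map (algebraMap ℤ_[ℓ] ℚ_[ℓ]) := by
    intro g
    have h1 := congrArg qm (hJ.equivariant g)
    rw [qm_smul, map_mul, map_mul, map_pow] at h1
    exact h1
  refine ⟨_, equi_rat hJ, ?_⟩
  rcases hm.rational ℓ hΛ with ⟨p, hpS, hp, hpℓ, hdeg⟩ | hg
  · exact noiso_block (algebraMap ℤ_[ℓ] ℚ_[ℓ]) hL hT.toPureSystem hdet heq hp hpℓ hdeg
      (fun e he _ => pow_ne_one_padic hp he) (fun U hU => rat_wt hT.toPureSystem U hU)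
  · obtain ⟨c, hw⟩ := hT.weights ℓ
    obtain ⟨q, hq, hqS', P, hPm, hqP, σ, hσ, hσc⟩ := exists_core (F := F) (S ∪ {ℓ})
    have hqS : q ∉ S := fun h => hqS' (Finset.mem_union_left _ h)
    have hqℓ : ℓ ≠ q := fun h => hqS' (Finset.mem_union_right _ (Finset.mem_singleton.2 h.symm))
    obtain ⟨M, hM0, hM⟩ := exists_M hT.toGoodSystem hq hqS hPm hqP hσ hσc c
    refine noiso_gen (algebraMap ℤ_[ℓ] ℚ_[ℓ]) continuous_coe mink_padic
      hT.toPureSystem hdet heq hw hq hqS hqℓ hPm hqP hσ hσc (M := M) (by exact_mod_cast hM0) hM ?_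
    intro d hd hdn he
    obtain ⟨p, v, hp, hpS, hpℓ, hv, hrel⟩ := hg d hd hdn he
    obtain ⟨M', hM', h1⟩ := rel_place hT.toGoodSystem hp hpS hv hrel
    exact ⟨p, v, hp, hpS, hpℓ, hv, h1 _ (by exact_mod_cast hM')⟩

theorem noiso_of_deg (hL : S_LIN) (hT : PolSystem S S' w T) {ℓ : ℕ} [hℓ : Fact ℓ.Prime] {p : ℕ}
    (hp : p.Prime) (hpℓ : ℓ ≠ p)
    (hdeg : ∀ P : Ideal ZBar, P.IsMaximal → (p : ZBar) ∈ P → DistinctBlocksAt F (T.rat ℓ) P) :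
    ∃ J : Matrix (Fin n) (Fin n) ℚ_[ℓ], Equi (T.rat ℓ) J ∧ NoIso (T.rat ℓ) J := by
  obtain ⟨J, hJ⟩ := hT.polarization ℓ
  have hdet : (J.map (algebraMap ℤ_[ℓ] ℚ_[ℓ])).det ≠ 0 := by
    have h1 := qm_det J
    intro h0
    rw [show J.map (algebraMap ℤ_[ℓ] ℚ_[ℓ]) = qm J from rfl, h1] at h0
    exact hJ.nondegenerate ((FaithfulSMul.algebraMap_injective ℤ_[ℓ] ℚ_[ℓ])
      (h0.trans (map_zero _).symm))
  have heq : ∀ g : F.fixingSubgroup, (chik (algebraMap ℤ_[ℓ] ℚ_[ℓ]) g : ℚ_[ℓ]) ^ w •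
      ((rep (algebraMap ℤ_[ℓ] ℚ_[ℓ]) T g : Matrix (Fin n) (Fin n) ℚ_[ℓ]).transpose *
        (J.map (algebraMap ℤ_[ℓ] ℚ_[ℓ])) * rep (algebraMap ℤ_[ℓ] ℚ_[ℓ]) T g) =
          J.map (algebraMap ℤ_[ℓ] ℚ_[ℓ]) := by
    intro g
    have h1 := congrArg qm (hJ.equivariant g)
    rw [qm_smul, map_mul, map_mul, map_pow] at h1
    exact h1
  exact ⟨_, equi_rat hJ, noiso_block (algebraMap ℤ_[ℓ] ℚ_[ℓ]) hL hT.toPureSystem hdet heq hp hpℓ hdeg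
      (fun e he _ => pow_ne_one_padic hp he) (fun U hU => rat_wt hT.toPureSystem U hU)⟩

theorem semis_rat (hL : S_LIN) (hT : PolSystem S S' w T) (hm : MultFree S w Λ T) {ℓ : ℕ}
    [hℓ : Fact ℓ.Prime] (hΛ : ℓ ∈ Λ) : Semis (T.rat ℓ) := by
  obtain ⟨J, h1, h2⟩ := noiso_rat hL hT hm hΛ
  exact fun U hU => ⟨orth J U, orth_stable h1 hU, isCompl_orth h1 h2 hU⟩

theorem exists_max_place {p : ℕ} (hp : p.Prime) : ∃ P : Ideal ZBar, P.IsMaximal ∧ (p : ZBar) ∈ P := by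
  obtain ⟨P, _, hP, hpP, _⟩ := exists_geom hp
  exact ⟨P, hP, hpP⟩

theorem mf_of (hMF : S_MF) {k : Type} [Field k] {ρ : F.fixingSubgroup →* GL (Fin n) k}
    {J : Matrix (Fin n) (Fin n) k} (he : Equi ρ J) (hn : NoIso ρ J) {p : ℕ} (hp : p.Prime)
    (hdeg : ∀ P : Ideal ZBar, P.IsMaximal → (p : ZBar) ∈ P → DistinctBlocksAt F ρ P) : MF ρ := by
  obtain ⟨P, hP, hpP⟩ := exists_max_place hp
  obtain ⟨s, g, _, _, _, hnil, hrk⟩ := hdeg P hP hpP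
  exact hMF k F.fixingSubgroup n ρ g
    (fun U hU => ⟨orth J U, orth_stable he hU, isCompl_orth he hn hU⟩) (dist_of hnil hrk)

/-- multiplicity one -/
theorem mult_one (hL : S_LIN) (hMF : S_MF) (hT : PolSystem S S' w T) {ℓ : ℕ} [hℓ : Fact ℓ.Prime]
    {p : ℕ} (hp : p.Prime) (hpℓ : ℓ ≠ p)
    (hdeg : ∀ P : Ideal ZBar, P.IsMaximal → (p : ZBar) ∈ P → DistinctBlocksAt F (T.rat ℓ) P)
    (U U' : Submodule ℚ_[ℓ] (Fin n → ℚ_[ℓ])) (f : U ≃ₗ[ℚ_[ℓ]] U') (hU : IsStable (T.rat ℓ) U)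
    (_hU' : IsStable (T.rat ℓ) U') (hf : ∀ (g : F.fixingSubgroup) (x y : U),
      (y : Fin n → ℚ_[ℓ]) = (T.rat ℓ g : Matrix (Fin n) (Fin n) ℚ_[ℓ]).mulVec x →
        (f y : Fin n → ℚ_[ℓ]) = (T.rat ℓ g : Matrix (Fin n) (Fin n) ℚ_[ℓ]).mulVec (f x))
    (hinf : U ⊓ U' = ⊥) : U = ⊥ := by
  obtain ⟨J, h1, h2⟩ := noiso_of_deg hL hT hp hpℓ hdeg
  refine mf_of hMF h1 h2 hp hdeg U hU (U'.subtype ∘ₗ (f : U →ₗ[ℚ_[ℓ]] U'))
    (U'.injective_subtype.comp f.injective) (fun g x y h => hf g x y h) ?_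
  rw [eq_bot_iff, ← hinf]
  refine inf_le_inf_left U ?_
  rintro _ ⟨x, rfl⟩
  exact (f x).2

theorem equi_toF {ℓ : ℕ} [Fact ℓ.Prime] {J : Matrix (Fin n) (Fin n) ℤ_[ℓ]}
    (hJ : T.IsPolarization w ℓ J) (g : F.fixingSubgroup) :
    (PadicInt.toZMod (chi ℓ g : ℤ_[ℓ])) ^ w • ((toF (T.rho ℓ) g : Matrix (Fin n) (Fin n)
      (ZMod ℓ)).transpose * rd J * toF (T.rho ℓ) g) = rd J := by
  have h1 := congrArg rd (hJ.equivariant g)
  rw [rd_smul, map_mul, map_mul, map_pow] at h1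
  exact h1

theorem noiso_res (hL : S_LIN) (hMF : S_MF) (hT : PolSystem S S' w T) (hm : MultFree S w Λ T) :
    ∃ N : ℕ, ∀ (ℓ : ℕ) [Fact ℓ.Prime], ℓ ∈ Λ → N < ℓ →
      ∃ J : Matrix (Fin n) (Fin n) ℤ_[ℓ], T.IsPolarization w ℓ J ∧ IsUnit J.det ∧
        NoIso (toF (T.rho ℓ)) (rd J) ∧ MF (toF (T.rho ℓ)) := by
  obtain ⟨N, hN⟩ := res_wt hT.toPureSystem
  obtain ⟨N', hN'⟩ := hm.residual
  set E := expo F.fixingSubgroup * finrank ℚ F * n ^ 3 with hE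
  refine ⟨max (max N N') (max (S'.sup id) (S.sup fun p => p ^ E)), ?_⟩
  intro ℓ _ hΛ hlt
  simp only [max_lt_iff] at hlt
  obtain ⟨⟨h2, h3⟩, h4, h6⟩ := hlt
  obtain ⟨p, hpS, hp, hpℓ, hdeg⟩ := hN' ℓ hΛ h3
  have hS' : ℓ ∉ S' := fun h => absurd (Finset.le_sup (f := id) h) (not_le.2 h4)
  obtain ⟨J, hJ, hJu⟩ := hT.perfect ℓ hS'
  have hdet : (rd J).det ≠ 0 := by
    have h1 : IsUnit (rd J).det := by
      have h2 := hJu.map (PadicInt.toZMod (p := ℓ))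
      rwa [RingHom.map_det] at h2
    exact h1.ne_zero
  have hno : NoIso (toF (T.rho ℓ)) (rd J) :=
    noiso_block (PadicInt.toZMod (p := ℓ)) hL hT.toPureSystem hdet
      (fun g => equi_toF hJ g) hp hpℓ hdeg
      (fun e he heE => pow_ne_one hp he heE
        (lt_of_le_of_lt (Finset.le_sup (f := fun p => p ^ E) hpS) h6))
      (fun U hU => hN ℓ h2 U hU)
  exact ⟨J, hJ, hJu, hno, mf_of hMF ⟨_, fun g => equi_toF hJ g⟩ hno hp hdeg⟩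

end single

section main

variable {F : SubFld ℚ} [hF : FiniteDimensional ℚ F] {n : ℕ}

theorem trace_toF {T T0 : IntegralSystem F n} {ℓ : ℕ} [Fact ℓ.Prime]
    (h : ∀ g : F.fixingSubgroup, (T.rat ℓ g : Matrix (Fin n) (Fin n) ℚ_[ℓ]).trace =
      (T0.rat ℓ g : Matrix (Fin n) (Fin n) ℚ_[ℓ]).trace) (g : F.fixingSubgroup) :
    (toF (T.rho ℓ) g : Matrix (Fin n) (Fin n) (ZMod ℓ)).trace =
      (toF (T0.rho ℓ) g : Matrix (Fin n) (Fin n) (ZMod ℓ)).trace := by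
  have key : ∀ T : IntegralSystem F n, (T.rat ℓ g : Matrix (Fin n) (Fin n) ℚ_[ℓ]).trace =
      algebraMap ℤ_[ℓ] ℚ_[ℓ] (T.rho ℓ g : Matrix (Fin n) (Fin n) ℤ_[ℓ]).trace := by
    intro T
    rw [AddMonoidHom.map_trace (algebraMap ℤ_[ℓ] ℚ_[ℓ])]
    rfl
  have h1 := h g
  rw [key, key] at h1
  have h2 := (FaithfulSMul.algebraMap_injective ℤ_[ℓ] ℚ_[ℓ]) h1
  have key2 : ∀ T : IntegralSystem F n, (toF (T.rho ℓ) g : Matrix (Fin n) (Fin n) (ZMod ℓ)).trace =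
      PadicInt.toZMod (T.rho ℓ g : Matrix (Fin n) (Fin n) ℤ_[ℓ]).trace := by
    intro T
    rw [AddMonoidHom.map_trace (PadicInt.toZMod (p := ℓ))]
    rfl
  rw [key2, key2, h2]

/-- **Finiteness of the polarized systems with multiplicity-free degeneration.** -/
theorem mf_finiteness (hL : S_LIN) (hMF : S_MF) (hTr : S_TRANS) (hn : 0 < n) (w : ℕ)
    (S S' : Finset ℕ) (Λ : Set ℕ) :
    ∃ (m : ℕ) (T : Fin m → IntegralSystem F n), (∀ i, PolSystem S S' w (T i) ∧ MultFree S w Λ (T i)) ∧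
      ∀ T' : IntegralSystem F n, PolSystem S S' w T' ∧ MultFree S w Λ T' →
        ∃ i, IsomorphicOn Λ (T i) T' := by
  classical
  obtain ⟨𝒯, h𝒯, hdet⟩ := traces_of_finite (F := F) hn S
  have hpoly : ∀ T T' : IntegralSystem F n, T.GoodSystem S w → T'.GoodSystem S w →
      ((fun x : 𝒯 × Fin (n + 1) => (T.poly x.1).coeff x.2) =
        fun x : 𝒯 × Fin (n + 1) => (T'.poly x.1).coeff x.2) →
      ∀ 𝔭 ∈ 𝒯, T.poly 𝔭 = T'.poly 𝔭 := by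
    intro T T' hT hT' heq 𝔭 h𝔭
    obtain ⟨h1, p, hp, hpS, hp𝔭⟩ := h𝒯 𝔭 h𝔭
    ext i
    by_cases hi : i < n + 1
    · exact congrFun heq (⟨𝔭, h𝔭⟩, ⟨i, hi⟩)
    · rw [Polynomial.coeff_eq_zero_of_natDegree_lt, Polynomial.coeff_eq_zero_of_natDegree_lt]
      · rw [(hT'.good p hp hpS 𝔭 h1 hp𝔭).natDegree]
        omega
      · rw [(hT.good p hp hpS 𝔭 h1 hp𝔭).natDegree]
        omega
  refine exists_reps (fun T : IntegralSystem F n => PolSystem S S' w T ∧ MultFree S w Λ T)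
    (fun T T' => IsomorphicOn Λ T T')
    (fun T => fun x : 𝒯 × Fin (n + 1) => (T.poly x.1).coeff x.2) ?_ ?_
  · refine (Set.Finite.pi' (t := fun x : 𝒯 × Fin (n + 1) => Set.Icc
      (-((Nat.card (𝓞 F ⧸ (x.1 : Ideal (𝓞 F))) ^ w) ^ n * n.choose (n / 2) : ℕ) : ℤ)
      (((Nat.card (𝓞 F ⧸ (x.1 : Ideal (𝓞 F))) ^ w) ^ n * n.choose (n / 2) : ℕ) : ℤ))
      (fun p => Set.finite_Icc _ _)).subset ?_
    rintro _ ⟨T, hT, rfl⟩ x
    obtain ⟨h1, r, hr, hrS, h2⟩ := h𝒯 x.1 x.1.2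
    exact abs_le.1 (coeff_bound hT.1.toGoodSystem hr hrS h1 h2 x.2)
  · rintro T0 ⟨hT0, hm0⟩
    obtain ⟨N', hN'⟩ := noiso_res hL hMF hT0 hm0
    let N : ℕ := max (max (S'.sup id) N') n
    choose k c hk hc using local_code2 (Λ := Λ) (T0 := T0)
      (fun ℓ hℓ hΛ => semis_rat hL hT0 hm0 hΛ)
    obtain ⟨K, ⟨e⟩⟩ := Finite.exists_equiv_fin (∀ ℓ : Fin (N + 1), Fin (k ℓ))
    refine ⟨K, fun T => (e fun ℓ => ⟨c ℓ T, hk ℓ T⟩ : ℕ), fun T => Fin.is_lt _, ?_⟩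
    rintro T T' ⟨hT, hg⟩ ⟨hT', hg'⟩ hi hi' hcode ℓ hℓ hℓΛ
    have htr : ∀ T : IntegralSystem F n, PolSystem S S' w T →
        ((fun x : 𝒯 × Fin (n + 1) => (T.poly x.1).coeff x.2) =
          fun x : 𝒯 × Fin (n + 1) => (T0.poly x.1).coeff x.2) →
        ∀ (ℓ : ℕ) [Fact ℓ.Prime] (g : F.fixingSubgroup),
          (T.rat ℓ g : Matrix (Fin n) (Fin n) ℚ_[ℓ]).trace =
            (T0.rat ℓ g : Matrix (Fin n) (Fin n) ℚ_[ℓ]).trace := by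
      intro T hT hi
      refine hdet w w T T0 hT.toGoodSystem hT0.toGoodSystem (fun p hp => ?_)
      rw [hpoly T T0 hT.toGoodSystem hT0.toGoodSystem hi p hp]
    have key : ∀ T : IntegralSystem F n, PolSystem S S' w T → MultFree S w Λ T →
        ((fun x : 𝒯 × Fin (n + 1) => (T.poly x.1).coeff x.2) =
          fun x : 𝒯 × Fin (n + 1) => (T0.poly x.1).coeff x.2) →
        ∃ B : Matrix (Fin n) (Fin n) ℤ_[ℓ], Inter T0 T ℓ B := fun T hT hg hi =>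
      exists_inter (semis_rat hL hT0 hm0 hℓΛ) (semis_rat hL hT hg hℓΛ) (htr T hT hi ℓ)
    have key2 : N < ℓ → ∀ T : IntegralSystem F n, PolSystem S S' w T →
        ((fun x : 𝒯 × Fin (n + 1) => (T.poly x.1).coeff x.2) =
          fun x : 𝒯 × Fin (n + 1) => (T0.poly x.1).coeff x.2) →
        ∃ J : Matrix (Fin n) (Fin n) ℤ_[ℓ], T.IsPolarization w ℓ J ∧ IsUnit J.det ∧
          NoIso (toF (T.rho ℓ)) (rd J) := by
      intro hN T hT hi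
      simp only [N, max_lt_iff] at hN
      obtain ⟨⟨h1, h1'⟩, h2⟩ := hN
      obtain ⟨J₀, hJ₀, hJ₀u, hno, hmf⟩ := hN' ℓ hℓΛ h1'
      have hS' : ℓ ∉ S' := fun h => absurd (Finset.le_sup (f := id) h) (not_le.2 h1)
      obtain ⟨J, hJ, hJu⟩ := hT.perfect ℓ hS'
      have hdt : ∀ J : Matrix (Fin n) (Fin n) ℤ_[ℓ], IsUnit J.det → (rd J).det ≠ 0 := by
        intro J hJu
        have h1 : IsUnit (rd J).det := by
          have h2 := hJu.map (PadicInt.toZMod (p := ℓ))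
          rwa [RingHom.map_det] at h2
        exact h1.ne_zero
      refine ⟨J, hJ, hJu, hTr (ZMod ℓ) F.fixingSubgroup n ?_ (toF (T0.rho ℓ)) (toF (T.rho ℓ))
        (rd J₀) (rd J) (fun g => (PadicInt.toZMod (chi ℓ g : ℤ_[ℓ])) ^ w) (hdt _ hJ₀u) (hdt _ hJu)
        (fun g => equi_toF hJ₀ g) (fun g => equi_toF hJ g)
        (fun g => (trace_toF (htr T hT hi ℓ) g).symm) hno hmf⟩
      intro m hm hmn h0
      rw [ZMod.natCast_eq_zero_iff] at h0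
      have := Nat.le_of_dvd hm h0
      omega
    have h1 := key T hT hg hi
    have h2 := key T' hT' hg' hi'
    by_cases hℓN : ℓ ≤ N
    · have h3 := e.injective (Fin.ext hcode)
      have h4 := congrFun h3 ⟨ℓ, Nat.lt_succ_of_le hℓN⟩
      exact hc ℓ T T' hℓΛ h1 h2 (congrArg Fin.val h4)
    · obtain ⟨B, hB, hBρ⟩ := h1
      obtain ⟨B', hB', hBρ'⟩ := h2
      obtain ⟨J0, hJ0, -, hn0⟩ := key2 (not_le.1 hℓN) T0 hT0 rfl
      obtain ⟨J, hJ, hJu, hn⟩ := key2 (not_le.1 hℓN) T hT hi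
      obtain ⟨J', hJ', hJu', hn'⟩ := key2 (not_le.1 hℓN) T' hT' hi'
      obtain ⟨A, hA⟩ := uniq hJu hJ.equivariant hJ0.equivariant hn hn0 hB hBρ
      obtain ⟨A', hA'⟩ := uniq hJu' hJ'.equivariant hJ0.equivariant hn' hn0 hB' hBρ'
      refine ⟨A' * A⁻¹, fun g => ?_⟩
      rw [hA, hA']
      group

end main

end Pool.Agent.NH52.MB
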