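import Pool.Agent.NH52.MB.Eig
import Pool.Agent.NH52.MB.Det

/-!
# MB-3: the determinants on the stable subspaces
-/

set_option autoImplicit false
set_option linter.unusedSectionVars false

namespace Pool.Agent.NH52.MB

open Module

section

variable {k V : Type} [Field k] [AddCommGroup V] [Module k V] [FiniteDimensional k V]
  {M σ : End k V} {J : V →ₗ[k] V →ₗ[k] k} {q : ℕ} {Q : k}

theorem dim_map (U : Submodule k V) :
    finrank k ↥(U ⊓ LinearMap.ker M) + finrank k (U.map M) = finrank k U := by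
  have h1 := LinearMap.finrank_range_add_finrank_ker (M.domRestrict U)
  have h2 : LinearMap.range (M.domRestrict U) = U.map M := by
    ext x
    constructor
    · rintro ⟨y, rfl⟩
      exact ⟨y, y.2, rfl⟩
    · rintro ⟨y, hy, rfl⟩
      exact ⟨⟨y, hy⟩, rfl⟩
  have h3 : finrank k (LinearMap.ker (M.domRestrict U)) = finrank k ↥(U ⊓ LinearMap.ker M) := by
    rw [LinearMap.ker_domRestrict]
    have h4 : Submodule.comap U.subtype (LinearMap.ker M) =
        (U ⊓ LinearMap.ker M).submoduleOf U := by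
      ext x
      exact ⟨fun h => ⟨x.2, h⟩, fun h => h.2⟩
    rw [h4]
    exact (Submodule.submoduleOfEquivOfLe inf_le_left).finrank_eq
  rw [h2, h3] at h1
  omega

theorem sumK (U : Submodule k V) (m : ℕ) :
    ∑ x ∈ Finset.range m, finrank k ↥(U.map (M ^ (x + 1)) ⊓ LinearMap.ker M) +
      finrank k (U.map (M ^ (m + 1))) = finrank k (U.map M) := by
  induction m with
  | zero => rw [zero_add, pow_one, Finset.range_zero, Finset.sum_empty, zero_add]
  | succ m ih =>
    rw [Finset.sum_range_succ]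
    have h1 := dim_map (M := M) (U.map (M ^ (m + 1)))
    have h2 : (U.map (M ^ (m + 1))).map M = U.map (M ^ (m + 1 + 1)) := by
      rw [← Submodule.map_comp]
      congr 1
      exact (pow_succ' M (m + 1)).symm
    rw [h2] at h1
    omega

theorem pow_mem {U : Submodule k V} (hU : ∀ x ∈ U, M x ∈ U) (b : ℕ) {x : V} (hx : x ∈ U) :
    (M ^ b) x ∈ U := by
  induction b with
  | zero => exact hx
  | succ b ih =>
    rw [pow_succ', Module.End.mul_apply]
    exact hU _ ih

theorem ker_ne (hM : IsNilpotent M) {U : Submodule k V} (hU : ∀ x ∈ U, M x ∈ U) (hne : U ≠ ⊥) :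
    U ⊓ LinearMap.ker M ≠ ⊥ := by
  intro h0
  obtain ⟨m, hm⟩ := hM
  obtain ⟨x, hx, hx0⟩ := (Submodule.ne_bot_iff U).1 hne
  have h1 : ∀ j : ℕ, (M ^ j) x ≠ 0 := by
    intro j
    induction j with
    | zero => exact hx0
    | succ j ih =>
      intro h2
      rw [pow_succ', Module.End.mul_apply] at h2
      have h3 : (M ^ j) x ∈ U ⊓ LinearMap.ker M := ⟨pow_mem hU j hx, h2⟩
      rw [h0, Submodule.mem_bot] at h3
      exact ih h3
  exact h1 m (by rw [hm]; rfl)

theorem main (h2 : S_EIG) (h1 : S_DET) (h : LD M σ J q Q) : ∀ (d : ℕ) (U : Submodule k V) (c : ℕ),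
    finrank k U = d → U ≤ LinearMap.range (M ^ c) → (∀ x ∈ U, M x ∈ U) → (∀ x ∈ U, σ x ∈ U) →
    ∃ s : ℕ, dt σ U ^ 2 * (q : k) ^ s = Q ^ finrank k U ∧ c * finrank k U ≤ s ∧
      s ≤ finrank k V ^ 2 * finrank k U ∧
      (s = c * finrank k U → ∀ b : ℕ, U ⊓ LinearMap.ker M ⊓ LinearMap.range (M ^ (b + c)) ≤
        U.map (M ^ b)) := by
  intro d
  induction d using Nat.strong_induction_on with
  | _ d ih =>
  intro U c hd hUc hUM hUσ
  by_cases hU : U = ⊥
  · subst hU
    have h3 : dt σ (⊥ : Submodule k V) = 1 := by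
      have h4 : ∀ x ∈ (⊥ : Submodule k V), σ x ∈ (⊥ : Submodule k V) := by
        intro x hx
        rw [Submodule.mem_bot] at hx ⊢
        rw [hx, map_zero]
      rw [dt_eq h4]
      exact LinearMap.det_eq_one_of_subsingleton _
    refine ⟨0, ?_, ?_, Nat.zero_le _, ?_⟩
    · rw [h3, finrank_bot, pow_zero, pow_zero, one_pow, one_mul]
    · rw [finrank_bot, mul_zero]
    · intro _ b x hx
      rw [bot_inf_eq, bot_inf_eq] at hx
      rw [(Submodule.mem_bot k).1 hx]
      exact Submodule.zero_mem _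
  set n := finrank k V with hn
  have hMn : M ^ n = 0 := pow_finrank h.dist.1
  have hMj : ∀ j, n ≤ j → M ^ j = 0 := fun j hj => pow_eq_zero_of_le hj hMn
  have hKne := ker_ne h.dist.1 hUM hU
  have hdim := dim_map (M := M) U
  have hKpos : 0 < finrank k ↥(U ⊓ LinearMap.ker M) := by
    rw [Nat.pos_iff_ne_zero]
    intro h0
    exact hKne (Submodule.finrank_eq_zero.1 h0)
  have hc : c < n := by
    by_contra hcn
    apply hU
    rw [eq_bot_iff]
    intro x hx
    obtain ⟨y, hy⟩ := hUc hx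
    rw [hMj c (by omega)] at hy
    rw [← hy]
    exact Submodule.zero_mem _
  obtain ⟨hP1, hP2, hdet⟩ := h1 k V M σ q h.dist.1 h.q0 h.rel U hUM hUσ
  have hR1 : U.map M ≤ LinearMap.range (M ^ (c + 1)) := by
    rintro _ ⟨y, hy, rfl⟩
    obtain ⟨z, rfl⟩ := hUc hy
    rw [pow_succ']
    exact ⟨z, rfl⟩
  obtain ⟨s', hs1, hs2, hs3, -⟩ := ih (finrank k (U.map M)) (by omega) (U.map M) (c + 1) rfl hR1
    (by rintro _ ⟨y, hy, rfl⟩; exact ⟨M y, hUM y hy, rfl⟩) hP2
  have hE := h2 k V M σ J q Q h (U ⊓ LinearMap.ker M) inf_le_right hP1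
  set D := ∑ b ∈ Finset.range n, finrank k ↥(U ⊓ LinearMap.ker M ⊓ LinearMap.range (M ^ (b + 1)))
    with hD
  -- the lower bound for D
  let g : ℕ → ℕ := fun b => if b < c then finrank k ↥(U ⊓ LinearMap.ker M)
    else finrank k ↥(U.map (M ^ (b + 1 - c)) ⊓ LinearMap.ker M)
  have hincl : ∀ j : ℕ, U.map (M ^ j) ⊓ LinearMap.ker M ≤
      U ⊓ LinearMap.ker M ⊓ LinearMap.range (M ^ (j + c)) := by
    rintro j x ⟨⟨y, hy, rfl⟩, hx⟩
    refine ⟨⟨pow_mem hUM j hy, hx⟩, ?_⟩
    obtain ⟨z, rfl⟩ := hUc hy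
    rw [pow_add]
    exact ⟨z, rfl⟩
  have hgf : ∀ b ∈ Finset.range n, g b ≤
      finrank k ↥(U ⊓ LinearMap.ker M ⊓ LinearMap.range (M ^ (b + 1))) := by
    intro b _
    simp only [g]
    split_ifs with hb
    · apply Submodule.finrank_mono
      intro x hx
      exact ⟨hx, range_anti hb (hUc hx.1)⟩
    · apply Submodule.finrank_mono
      have h3 := hincl (b + 1 - c)
      rwa [Nat.sub_add_cancel (by omega)] at h3
  have hg : ∑ b ∈ Finset.range n, g b = c * finrank k ↥(U ⊓ LinearMap.ker M) +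
      finrank k (U.map M) := by
    obtain ⟨m, hm⟩ : ∃ m, n = c + m := ⟨n - c, by omega⟩
    rw [hm, Finset.sum_range_add]
    congr 1
    · rw [Finset.sum_congr rfl (g := fun _ => finrank k ↥(U ⊓ LinearMap.ker M))
        (fun b hb => if_pos (Finset.mem_range.1 hb)), Finset.sum_const, Finset.card_range,
        smul_eq_mul]
    · have h3 := sumK (M := M) U m
      have h4 : U.map (M ^ (m + 1)) = ⊥ := by
        rw [eq_bot_iff]
        rintro _ ⟨y, hy, rfl⟩
        obtain ⟨z, rfl⟩ := hUc hy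
        rw [← Module.End.mul_apply, ← pow_add, hMj _ (by omega)]
        exact Submodule.zero_mem _
      rw [h4, finrank_bot, add_zero] at h3
      rw [← h3]
      refine Finset.sum_congr rfl fun x _ => ?_
      simp only [g]
      rw [if_neg (by omega), show c + x + 1 - c = x + 1 by omega]
  have hgD : ∑ b ∈ Finset.range n, g b ≤ D := Finset.sum_le_sum hgf
  rw [hg] at hgD
  have hsum : c * finrank k U = c * finrank k ↥(U ⊓ LinearMap.ker M) + c * finrank k (U.map M) := by
    rw [← hdim, mul_add]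
  have hs2' : c * finrank k (U.map M) + finrank k (U.map M) ≤ s' := by
    have : (c + 1) * finrank k (U.map M) = c * finrank k (U.map M) + finrank k (U.map M) := by ring
    omega
  have hDn : D ≤ n ^ 2 := by
    refine (Finset.sum_le_card_nsmul _ _ n fun b _ => Submodule.finrank_le _).trans ?_
    rw [Finset.card_range, smul_eq_mul, sq]
  refine ⟨D + s' - 2 * finrank k (U.map M), ?_, ?_, ?_, ?_⟩
  · have e1 : 2 * finrank k (U.map M) + (D + s' - 2 * finrank k (U.map M)) = D + s' := by omega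
    have e2 : dt σ U ^ 2 * (q : k) ^ (D + s' - 2 * finrank k (U.map M)) =
        dt σ (U ⊓ LinearMap.ker M) ^ 2 * dt σ (U.map M) ^ 2 *
          (q : k) ^ (2 * finrank k (U.map M) + (D + s' - 2 * finrank k (U.map M))) := by
      rw [hdet, pow_add (q : k) (2 * finrank k (U.map M)), pow_mul']
      ring
    rw [e2, e1, ← hdim, pow_add Q, ← hE, ← hs1, pow_add]
    ring
  · omega
  · have e1 : n ^ 2 * finrank k U = n ^ 2 * finrank k ↥(U ⊓ LinearMap.ker M) +
        n ^ 2 * finrank k (U.map M) := by rw [← hdim, mul_add]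
    have e2 : n ^ 2 * 1 ≤ n ^ 2 * finrank k ↥(U ⊓ LinearMap.ker M) := Nat.mul_le_mul_left _ hKpos
    omega
  · intro hseq b
    have hDeq : ∑ b ∈ Finset.range n, g b = D := by rw [hg]; omega
    have hpt := (Finset.sum_eq_sum_iff_of_le hgf).1 hDeq
    rcases Nat.eq_zero_or_pos b with hb | hb
    · subst hb
      rw [pow_zero]
      intro x hx
      exact ⟨x, hx.1.1, rfl⟩
    · rcases Nat.lt_or_ge n (b + c) with hbn | hbn
      · intro x hx
        have h3 : x ∈ LinearMap.range (M ^ (b + c)) := hx.2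
        rw [hMj _ (by omega), LinearMap.range_zero, Submodule.mem_bot] at h3
        rw [h3]
        exact Submodule.zero_mem _
      · have h3 := hpt (b + c - 1) (Finset.mem_range.2 (by omega))
        simp only [g] at h3
        rw [if_neg (by omega), show b + c - 1 + 1 - c = b by omega,
          show b + c - 1 + 1 = b + c by omega] at h3
        have h4 := Submodule.eq_of_le_of_finrank_le (hincl b) h3.ge
        rw [← h4]
        exact inf_le_left

end

theorem t_LIN' (h1 : S_DET) (h2 : S_EIG) : S_LIN := by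
  intro k V _ _ _ _ M σ J q Q h U hUM hUσ
  obtain ⟨s, hs1, -, hs3, hs4⟩ := main h2 h1 h _ U 0 rfl
    (by rw [pow_zero]; exact fun x _ => ⟨x, rfl⟩) hUM hUσ
  refine ⟨s, ?_, hs1, ?_⟩
  · refine hs3.trans ?_
    rw [pow_succ (finrank k V) 2]
    exact Nat.mul_le_mul_left _ (Submodule.finrank_le U)
  · intro hiso hne
    rw [Nat.pos_iff_ne_zero]
    intro h0
    have h5 := hs4 (by rw [h0, zero_mul])
    simp only [add_zero] at h5
    classical
    have hex : ∃ b, U ⊓ LinearMap.ker M ⊓ LinearMap.range (M ^ b) = ⊥ := by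
      refine ⟨finrank k V, ?_⟩
      rw [pow_finrank h.dist.1, LinearMap.range_zero, inf_bot_eq]
    have hb := Nat.find_spec hex
    obtain ⟨b, hbe⟩ : ∃ b, Nat.find hex = b + 1 := by
      refine ⟨Nat.find hex - 1, ?_⟩
      have : Nat.find hex ≠ 0 := by
        intro h6
        rw [h6, pow_zero] at hb
        apply ker_ne h.dist.1 hUM hne
        rw [← hb]
        exact (inf_eq_left.2 fun x _ => ⟨x, rfl⟩).symm
      omega
    have hb' := Nat.find_min hex (m := b) (by omega)
    rw [hbe] at hb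
    obtain ⟨κ, hκ, hκ0⟩ := (Submodule.ne_bot_iff _).1 hb'
    have hκ' : κ ∉ LinearMap.range (M ^ (b + 1)) := by
      intro h6
      apply hκ0
      have h7 : κ ∈ U ⊓ LinearMap.ker M ⊓ LinearMap.range (M ^ (b + 1)) := ⟨hκ.1, h6⟩
      rw [hb, Submodule.mem_bot] at h7
      exact h7
    obtain ⟨y, hy, hyκ⟩ := h5 b hκ
    have hκK : κ ∈ KK M b := ⟨hκ.1.2, hκ.2⟩
    have hy1 : (M ^ (b + 1)) y = 0 := by
      rw [pow_succ', Module.End.mul_apply, hyκ]
      exact hκ.1.2
    apply hκ'
    rw [← hyκ]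
    refine prim h hy1 fun z hz => ?_
    have h6 : (M ^ b) z ∈ KK M b := by
      refine ⟨?_, z, rfl⟩
      show M ((M ^ b) z) = 0
      rw [← Module.End.mul_apply, ← pow_succ']
      exact hz
    obtain ⟨c, hc⟩ := KK_line h.dist hκK hκ' h6
    have h7 := ort2 h hc.2 hy1
    rw [map_sub, map_smul, hiso y hy κ hκ.1.1, smul_zero, sub_zero] at h7
    exact h7

theorem t_LIN : S_LIN := t_LIN' t_DET t_EIG

end Pool.Agent.NH52.MB
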