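import Pool.Agent.NH52.MB.Stm

/-!
# Project MB, part 4: distinct Jordan blocks give multiplicity one
-/

set_option autoImplicit false

namespace Pool.Agent.NH52.MB

open Module

namespace Mf

variable {k V W : Type} [Field k] [AddCommGroup V] [Module k V] [AddCommGroup W] [Module k W]

theorem rk_map (f : W →ₗ[k] V) (hf : Function.Injective f) (P : Submodule k W) :
    finrank k (P.map f) = finrank k P :=
  (LinearEquiv.finrank_eq (Submodule.equivMapOfInjective f hf P)).symm

theorem comm_pow (N : End k V) (R : End k W) (f : W →ₗ[k] V) (h : ∀ x, N (f x) = f (R x))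
    (m : ℕ) (x : W) : (N ^ m) (f x) = f ((R ^ m) x) := by
  induction m generalizing x with
  | zero => rfl
  | succ m ih =>
    rw [pow_succ, pow_succ]
    show (N ^ m) (N (f x)) = f ((R ^ m) (R x))
    rw [h, ih]

theorem map_range (N : End k V) (R : End k W) (f : W →ₗ[k] V) (h : ∀ x, N (f x) = f (R x))
    (m : ℕ) : (LinearMap.range f).map (N ^ m) = (LinearMap.range (R ^ m)).map f := by
  ext y
  constructor
  · rintro ⟨_, ⟨x, rfl⟩, rfl⟩
    exact ⟨_, ⟨x, rfl⟩, (comm_pow N R f h m x).symm⟩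
  · rintro ⟨_, ⟨x, rfl⟩, rfl⟩
    exact ⟨f x, ⟨x, rfl⟩, comm_pow N R f h m x⟩

theorem rk1 [FiniteDimensional k W] (R : End k W) (P : Submodule k W) :
    finrank k (P.map R) + finrank k ↥(P ⊓ LinearMap.ker R) = finrank k P := by
  have h0 := LinearMap.finrank_range_add_finrank_ker (R.domRestrict P)
  have h1 : LinearMap.range (R.domRestrict P) = P.map R := by
    rw [LinearMap.domRestrict, LinearMap.range_comp, Submodule.range_subtype]
  have h2 : finrank k (LinearMap.ker (R.domRestrict P)) = finrank k ↥(P ⊓ LinearMap.ker R) := by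
    rw [LinearMap.domRestrict, LinearMap.ker_comp, ← Submodule.finrank_map_subtype_eq P,
      Submodule.map_comap_subtype]
  rw [h1, h2] at h0
  exact h0

theorem conv [FiniteDimensional k W] (R : End k W) (m : ℕ) :
    2 * finrank k (LinearMap.range (R ^ (m + 1))) ≤
      finrank k (LinearMap.range (R ^ m)) + finrank k (LinearMap.range (R ^ (m + 2))) := by
  have hs : ∀ m, LinearMap.range (R ^ (m + 1)) = (LinearMap.range (R ^ m)).map R := by
    intro m
    rw [pow_succ']
    exact LinearMap.range_comp _ _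
  have hle : LinearMap.range (R ^ (m + 1)) ≤ LinearMap.range (R ^ m) := by
    rw [pow_succ]
    exact LinearMap.range_comp_le_range _ _
  have h1 := rk1 R (LinearMap.range (R ^ m))
  have h2 := rk1 R (LinearMap.range (R ^ (m + 1)))
  rw [← hs] at h1 h2
  have h3 : finrank k ↥(LinearMap.range (R ^ (m + 1)) ⊓ LinearMap.ker R) ≤
      finrank k ↥(LinearMap.range (R ^ m) ⊓ LinearMap.ker R) :=
    Submodule.finrank_mono (inf_le_inf_right _ hle)
  rw [show m + 1 + 1 = m + 2 from rfl] at h2
  omega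

theorem rk_sup [FiniteDimensional k V] {P Q : Submodule k V} (h : P ⊓ Q = ⊥) :
    finrank k ↥(P ⊔ Q) = finrank k P + finrank k Q := by
  have h1 := Submodule.finrank_sup_add_finrank_inf_eq P Q
  rw [h, finrank_bot, add_zero] at h1
  exact h1

end Mf

open Mf in
/-- MB-4 -/
theorem t_MF : S_MF := by
  intro k G _ _ n ρ g hsm hd W hW f hf hfe hdis
  classical
  by_contra hne
  obtain ⟨N, hN⟩ : ∃ N : End k (Fin n → k), N = Matrix.toLin'
      ((ρ g : Matrix (Fin n) (Fin n) k) - 1) := ⟨_, rfl⟩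
  rw [← hN] at hd
  obtain ⟨hnil, hdist⟩ := hd
  have hNx : ∀ x, N x = (ρ g : Matrix (Fin n) (Fin n) k).mulVec x - x := by
    intro x
    rw [hN, Matrix.toLin'_apply, Matrix.sub_mulVec, Matrix.one_mulVec]
  have hst : ∀ U : Submodule k (Fin n → k), Stb ρ U → ∀ x ∈ U, N x ∈ U := by
    intro U hU x hx
    rw [hNx]
    exact U.sub_mem (hU g x hx) hx
  -- the image is stable
  have hW' : Stb ρ (LinearMap.range f) := by
    rintro h _ ⟨x, rfl⟩
    exact ⟨⟨_, hW h x x.2⟩, hfe h x ⟨_, hW h x x.2⟩ rfl⟩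
  have hWW : Stb ρ (W ⊔ LinearMap.range f) := by
    intro h x hx
    obtain ⟨a, ha, b, hb, rfl⟩ := Submodule.mem_sup.1 hx
    rw [Matrix.mulVec_add]
    exact Submodule.add_mem_sup (hW h a ha) (hW' h b hb)
  obtain ⟨W3, hW3, hcomp⟩ := hsm _ hWW
  obtain ⟨R, hR⟩ : ∃ R : End k W, R = N.restrict (hst W hW) := ⟨_, rfl⟩
  obtain ⟨R3, hR3⟩ : ∃ R : End k W3, R = N.restrict (hst W3 hW3) := ⟨_, rfl⟩
  have c1 : ∀ x, N (W.subtype x) = W.subtype (R x) := by
    intro x
    rw [hR]
    rfl
  have c3 : ∀ x, N (W3.subtype x) = W3.subtype (R3 x) := by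
    intro x
    rw [hR3]
    rfl
  have c2 : ∀ x, N (f x) = f (R x) := by
    intro x
    have h1 : f (⟨_, hW g x x.2⟩ : W) = (ρ g : Matrix (Fin n) (Fin n) k).mulVec (f x) :=
      hfe g x ⟨_, hW g x x.2⟩ rfl
    have h2 : R x = (⟨_, hW g x x.2⟩ : W) - x := by
      apply Subtype.ext
      rw [hR]
      exact hNx _
    rw [h2, map_sub, h1, hNx]
  -- the ranks
  have hrk : ∀ m : ℕ, finrank k (LinearMap.range (N ^ m)) =
      2 * finrank k (LinearMap.range (R ^ m)) + finrank k (LinearMap.range (R3 ^ m)) := by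
    intro m
    have e0 : LinearMap.range (N ^ m) = ((LinearMap.range (R ^ m)).map W.subtype ⊔
        (LinearMap.range (R ^ m)).map f) ⊔ (LinearMap.range (R3 ^ m)).map W3.subtype := by
      rw [← map_range N R W.subtype c1 m, ← map_range N R f c2 m,
        ← map_range N R3 W3.subtype c3 m, ← Submodule.map_sup, ← Submodule.map_sup,
        Submodule.range_subtype, Submodule.range_subtype, hcomp.sup_eq_top, Submodule.map_top]
    have l1 : (LinearMap.range (R ^ m)).map W.subtype ≤ W := Submodule.map_subtype_le _ _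
    have l2 : (LinearMap.range (R ^ m)).map f ≤ LinearMap.range f := LinearMap.map_le_range
    have l3 : (LinearMap.range (R3 ^ m)).map W3.subtype ≤ W3 := Submodule.map_subtype_le _ _
    rw [e0, rk_sup, rk_sup, rk_map _ W.injective_subtype, rk_map _ hf,
      rk_map _ W3.injective_subtype]
    · ring
    · exact le_bot_iff.1 ((inf_le_inf l1 l2).trans hdis.le)
    · exact le_bot_iff.1 ((inf_le_inf (sup_le_sup l1 l2) l3).trans hcomp.inf_eq_bot.le)
  -- the last power which does not vanish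
  have hRn : ∃ m, R ^ m = 0 := by
    obtain ⟨m, hm⟩ := hnil
    refine ⟨m, LinearMap.ext fun x => ?_⟩
    have h1 := comm_pow N R W.subtype c1 m x
    rw [hm] at h1
    exact W.injective_subtype (by rw [← h1]; rfl)
  have hR0 : R ^ 0 ≠ 0 := by
    intro h
    refine hne (le_bot_iff.1 fun x hx => ?_)
    have h1 : (R ^ 0) (⟨x, hx⟩ : W) = 0 := by rw [h]; rfl
    rw [pow_zero] at h1
    have h2 : (⟨x, hx⟩ : W) = 0 := h1
    exact congrArg Subtype.val h2
  obtain ⟨j, hj1, hj2⟩ : ∃ j, R ^ j ≠ 0 ∧ R ^ (j + 1) = 0 := by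
    have h1 : Nat.find hRn ≠ 0 := by
      intro h
      have h2 := Nat.find_spec hRn
      rw [h] at h2
      exact hR0 h2
    obtain ⟨j, hj⟩ := Nat.exists_eq_succ_of_ne_zero h1
    refine ⟨j, fun h => ?_, ?_⟩
    · have h2 := Nat.find_min' hRn h
      omega
    · have h2 := Nat.find_spec hRn
      rw [hj] at h2
      exact h2
  have hj3 : R ^ (j + 2) = 0 := by
    rw [pow_succ, hj2, zero_mul]
  have a0 : 1 ≤ finrank k (LinearMap.range (R ^ j)) := by
    rw [Nat.one_le_iff_ne_zero]
    intro h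
    have h2 := Submodule.finrank_eq_zero.1 h
    exact hj1 (LinearMap.range_eq_bot.1 h2)
  have a1 : finrank k (LinearMap.range (R ^ (j + 1))) = 0 := by
    rw [hj2, LinearMap.range_zero, finrank_bot]
  have a2 : finrank k (LinearMap.range (R ^ (j + 2))) = 0 := by
    rw [hj3, LinearMap.range_zero, finrank_bot]
  have h1 := hdist j
  rw [hrk j, hrk (j + 1), hrk (j + 2), a1, a2] at h1
  have h2 := conv R3 j
  omega

end Pool.Agent.NH52.MB
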