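import Mathlib

/-!
# Project MB: multiplicity-free degeneration (statements, only Mathlib)

Linear algebra of a nilpotent endomorphism with pairwise distinct Jordan blocks, a Frobenius similitude
and a nondegenerate form; transfer of the absence of isotropic stable subspaces between representations
with the same traces.
-/

set_option autoImplicit false

namespace Pool.Agent.NH52.MB

open Module

/-! ### part 1: linear algebra at one place -/

section lin

variable {k V : Type} [Field k] [AddCommGroup V] [Module k V]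

open Classical in
/-- the determinant of `σ` on the stable subspace `U` -/
noncomputable def dt (σ : End k V) (U : Submodule k V) : k :=
  if h : ∀ x ∈ U, σ x ∈ U then LinearMap.det (σ.restrict h) else 0

/-- the nilpotent endomorphism `M` has at most one Jordan block of each size (the number of blocks of size
`m + 1` is `rank M ^ m - 2 rank M ^ (m + 1) + rank M ^ (m + 2)`) -/
def Dist (M : End k V) : Prop := IsNilpotent M ∧ ∀ m : ℕ,
  finrank k (LinearMap.range (M ^ m)) + finrank k (LinearMap.range (M ^ (m + 2))) ≤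
    2 * finrank k (LinearMap.range (M ^ (m + 1))) + 1

/-- the data at a place: `u = 1 + M` is unipotent with distinct Jordan blocks and an isometry, `σ` is a
similitude with factor `Q`, and `u σ = σ u ^ q` -/
structure LD (M σ : End k V) (J : V →ₗ[k] V →ₗ[k] k) (q : ℕ) (Q : k) : Prop where
  dist : Dist M
  inj : Function.Injective σ
  q0 : (q : k) ≠ 0
  Q0 : Q ≠ 0
  rel : (1 + M) * σ = σ * (1 + M) ^ q
  iso : ∀ x y, J ((1 + M) x) ((1 + M) y) = J x y
  sim : ∀ x y, J (σ x) (σ y) = Q * J x y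
  nd : ∀ x, (∀ y, J x y = 0) → x = 0

end lin

/-- MB-1: the determinants on `U`, `U ∩ ker M` and `M U` -/
def S_DET : Prop := ∀ (k V : Type) [Field k] [AddCommGroup V] [Module k V] [FiniteDimensional k V]
  (M σ : End k V) (q : ℕ), IsNilpotent M → (q : k) ≠ 0 → (1 + M) * σ = σ * (1 + M) ^ q →
  ∀ U : Submodule k V, (∀ x ∈ U, M x ∈ U) → (∀ x ∈ U, σ x ∈ U) →
    (∀ x ∈ U ⊓ LinearMap.ker M, σ x ∈ U ⊓ LinearMap.ker M) ∧ (∀ x ∈ U.map M, σ x ∈ U.map M) ∧
    dt σ U = dt σ (U ⊓ LinearMap.ker M) * (q : k) ^ finrank k (U.map M) * dt σ (U.map M)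

/-- MB-2: the determinants on the stable subspaces of the kernel -/
def S_EIG : Prop := ∀ (k V : Type) [Field k] [AddCommGroup V] [Module k V] [FiniteDimensional k V]
  (M σ : End k V) (J : V →ₗ[k] V →ₗ[k] k) (q : ℕ) (Q : k), LD M σ J q Q →
  ∀ W : Submodule k V, W ≤ LinearMap.ker M → (∀ x ∈ W, σ x ∈ W) →
    dt σ W ^ 2 * (q : k) ^ (∑ b ∈ Finset.range (finrank k V),
      finrank k ↥(W ⊓ LinearMap.range (M ^ (b + 1)))) = Q ^ finrank k W

/-- MB-3: the determinants on the stable subspaces -/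
def S_LIN : Prop := ∀ (k V : Type) [Field k] [AddCommGroup V] [Module k V] [FiniteDimensional k V]
  (M σ : End k V) (J : V →ₗ[k] V →ₗ[k] k) (q : ℕ) (Q : k), LD M σ J q Q →
  ∀ U : Submodule k V, (∀ x ∈ U, M x ∈ U) → (∀ x ∈ U, σ x ∈ U) →
    ∃ s : ℕ, s ≤ finrank k V ^ 3 ∧ dt σ U ^ 2 * (q : k) ^ s = Q ^ finrank k U ∧
      ((∀ x ∈ U, ∀ y ∈ U, J x y = 0) → U ≠ ⊥ → 0 < s)

/-! ### part 2: representations with the same traces -/

section rep

variable {G : Type} [Group G] {k : Type} [Field k] {n : ℕ}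

/-- the subspace `U` is stable -/
def Stb (ρ : G →* GL (Fin n) k) (U : Submodule k (Fin n → k)) : Prop :=
  ∀ g : G, ∀ u ∈ U, (ρ g : Matrix (Fin n) (Fin n) k).mulVec u ∈ U

/-- every stable subspace has a stable complement -/
def Sms (ρ : G →* GL (Fin n) k) : Prop :=
  ∀ U : Submodule k (Fin n → k), Stb ρ U → ∃ U' : Submodule k (Fin n → k), Stb ρ U' ∧ IsCompl U U'

/-- there is no nonzero isotropic stable subspace -/
def NoIs (ρ : G →* GL (Fin n) k) (J : Matrix (Fin n) (Fin n) k) : Prop :=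
  ∀ I : Submodule k (Fin n → k), Stb ρ I → (∀ x ∈ I, ∀ y ∈ I, dotProduct x (J.mulVec y) = 0) → I = ⊥

/-- two disjoint isomorphic stable subspaces are zero -/
def MF (ρ : G →* GL (Fin n) k) : Prop :=
  ∀ W : Submodule k (Fin n → k), Stb ρ W → ∀ f : W →ₗ[k] (Fin n → k), Function.Injective f →
    (∀ (g : G) (x y : W), (y : Fin n → k) = (ρ g : Matrix (Fin n) (Fin n) k).mulVec x →
      f y = (ρ g : Matrix (Fin n) (Fin n) k).mulVec (f x)) →
    W ⊓ LinearMap.range f = ⊥ → W = ⊥

end rep

/-- MB-4: distinct Jordan blocks give multiplicity one -/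
def S_MF : Prop := ∀ (k G : Type) [Field k] [Group G] (n : ℕ) (ρ : G →* GL (Fin n) k) (g : G),
  Sms ρ → Dist (Matrix.toLin' ((ρ g : Matrix (Fin n) (Fin n) k) - 1) : End k (Fin n → k)) → MF ρ

section md

/-- the trace of `a` on `X` -/
noncomputable def tr (k : Type) [Field k] {A : Type} [Ring A] [Algebra k A] (X : Type) [AddCommGroup X]
    [Module k X] [Module A X] [IsScalarTower k A X] (a : A) : k :=
  LinearMap.trace k X (Algebra.lsmul k k X a)

end md

/-- MB-5: additivity of the trace -/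
def S_TRQ : Prop := ∀ (k A : Type) [Field k] [Ring A] [Algebra k A] (X : Type) [AddCommGroup X]
  [Module k X] [Module A X] [IsScalarTower k A X] [FiniteDimensional k X] (P : Submodule A X) (a : A),
  tr k X a = tr k P a + tr k (X ⧸ P) a

/-- MB-5: semisimplification -/
def S_SS : Prop := ∀ (k A : Type) [Field k] [Ring A] [Algebra k A] (X : Type) [AddCommGroup X]
  [Module k X] [Module A X] [IsScalarTower k A X] [FiniteDimensional k X],
  ∃ (Y : Type) (_ : AddCommGroup Y) (_ : Module k Y) (_ : Module A Y) (_ : IsScalarTower k A Y)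
    (_ : FiniteDimensional k Y) (_ : IsSemisimpleModule A Y), finrank k Y = finrank k X ∧
      ∀ a : A, tr k Y a = tr k X a

/-- MB-6: semisimple modules with the same traces are isomorphic (large characteristic) -/
def S_BNL : Prop := ∀ (k A : Type) [Field k] [Ring A] [Algebra k A] (X Y : Type) [AddCommGroup X]
  [Module k X] [Module A X] [IsScalarTower k A X] [FiniteDimensional k X] [AddCommGroup Y]
  [Module k Y] [Module A Y] [IsScalarTower k A Y] [FiniteDimensional k Y]
  [IsSemisimpleModule A X] [IsSemisimpleModule A Y],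
  (∀ m : ℕ, 0 < m → m ≤ finrank k X → (m : k) ≠ 0) → finrank k X = finrank k Y →
  (∀ a : A, tr k X a = tr k Y a) → Nonempty (X ≃ₗ[A] Y)

/-- MB-7: transfer of the absence of isotropic stable subspaces -/
def S_TRANS : Prop := ∀ (k G : Type) [Field k] [Group G] (n : ℕ),
  (∀ m : ℕ, 0 < m → m ≤ n → (m : k) ≠ 0) → ∀ (ρ₀ ρ : G →* GL (Fin n) k)
  (J₀ J : Matrix (Fin n) (Fin n) k) (c : G → k), J₀.det ≠ 0 → J.det ≠ 0 →
  (∀ g, c g • ((ρ₀ g : Matrix (Fin n) (Fin n) k).transpose * J₀ * ρ₀ g) = J₀) →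
  (∀ g, c g • ((ρ g : Matrix (Fin n) (Fin n) k).transpose * J * ρ g) = J) →
  (∀ g, (ρ₀ g : Matrix (Fin n) (Fin n) k).trace = (ρ g : Matrix (Fin n) (Fin n) k).trace) →
  NoIs ρ₀ J₀ → MF ρ₀ → NoIs ρ J

end Pool.Agent.NH52.MB
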