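import Pool.Agent.NH52.MB.DefM
import Pool.Agent.NH52.MB.Stm
import Pool.Agent.R390.SF.DegI

/-!
# Multiplicity-free degeneration: no isotropic stable subspaces
-/

set_option autoImplicit false
set_option linter.unusedSectionVars false

namespace Pool.Agent.NH52.MB

open Module Polynomial NumberField Pool.Agent.Y800 Pool.Agent.R390.SF Pool.Agent.NH52.SF
open Pool.Agent.Y126.SH (chi)

attribute [local instance] Subgroup.fintypeQuotientOfFiniteIndex

section mat

variable {k : Type} [Field k] {n : ℕ}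

/-- the bilinear form of a matrix -/
noncomputable def bf (J : Matrix (Fin n) (Fin n) k) : (Fin n → k) →ₗ[k] (Fin n → k) →ₗ[k] k :=
  LinearMap.mk₂ k (fun x y => dotProduct x (J.mulVec y))
    (fun x x' y => by rw [add_dotProduct])
    (fun c x y => by rw [smul_dotProduct])
    (fun x y y' => by rw [Matrix.mulVec_add, dotProduct_add])
    (fun c x y => by rw [Matrix.mulVec_smul, dotProduct_smul])

theorem bf_apply (J : Matrix (Fin n) (Fin n) k) (x y : Fin n → k) :
    bf J x y = dotProduct x (J.mulVec y) := rfl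

theorem bf_nd {J : Matrix (Fin n) (Fin n) k} (hJ : J.det ≠ 0) (x : Fin n → k)
    (h : ∀ y, bf J x y = 0) : x = 0 := by
  have h1 : Matrix.vecMul x J = 0 := by
    funext i
    have h2 := h (Pi.single i 1)
    rw [bf_apply, Matrix.dotProduct_mulVec, dotProduct_single, mul_one] at h2
    exact h2
  exact Matrix.eq_zero_of_vecMul_eq_zero hJ h1

theorem bf_act {A J : Matrix (Fin n) (Fin n) k} {c : k} (h : c • (A.transpose * J * A) = J)
    (x y : Fin n → k) : c * bf J (A.mulVec x) (A.mulVec y) = bf J x y := by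
  rw [bf_apply, bf_apply]
  conv_rhs => rw [← h]
  rw [Matrix.smul_mulVec, dotProduct_smul, smul_eq_mul, ← Matrix.mulVec_mulVec,
    ← Matrix.mulVec_mulVec, Matrix.dotProduct_mulVec x, Matrix.vecMul_transpose]

theorem dist_of {N : Matrix (Fin n) (Fin n) k} (h1 : IsNilpotent N)
    (h2 : ∀ m : ℕ, (N ^ m).rank + (N ^ (m + 2)).rank ≤ 2 * (N ^ (m + 1)).rank + 1) :
    Dist (Matrix.toLin' N : End k (Fin n → k)) := by
  have hr : ∀ m : ℕ, finrank k (LinearMap.range ((Matrix.toLin' N : End k (Fin n → k)) ^ m)) =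
      (N ^ m).rank := by
    intro m
    have h3 : (Matrix.toLin' N : End k (Fin n → k)) ^ m = Matrix.toLin' (N ^ m) :=
      (Matrix.toLin'_pow N m).symm
    rw [h3]
    rfl
  refine ⟨?_, fun m => ?_⟩
  · obtain ⟨m, hm⟩ := h1
    refine ⟨m, ?_⟩
    have h3 : (Matrix.toLin' N : End k (Fin n → k)) ^ m = Matrix.toLin' (N ^ m) :=
      (Matrix.toLin'_pow N m).symm
    rw [h3, hm, map_zero]
  · rw [hr, hr, hr]
    exact h2 m

end mat

section core

variable {F : SubFld ℚ} [hF : FiniteDimensional ℚ F] {n : ℕ} {S : Finset ℕ} {w : ℕ}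
  {T : IntegralSystem F n} {ℓ : ℕ} [hℓ : Fact ℓ.Prime]
  {k : Type} [Field k] [TopologicalSpace k] [IsTopologicalRing k] (ψ : ℤ_[ℓ] →+* k)

/-- **Multiplicity-free degeneration: no isotropic stable subspaces.** -/
theorem noiso_block (hL : S_LIN) (hT : T.PureSystem S w) {J : Matrix (Fin n) (Fin n) k}
    (hJdet : J.det ≠ 0)
    (hJ : ∀ g : F.fixingSubgroup, (chik ψ g : k) ^ w •
      ((rep ψ T g : Matrix (Fin n) (Fin n) k).transpose * J * rep ψ T g) = J)
    {p : ℕ} (hp : p.Prime) (hpℓ : ℓ ≠ p)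
    (hdeg : ∀ P : Ideal ZBar, P.IsMaximal → (p : ZBar) ∈ P → DistinctBlocksAt F (rep ψ T) P)
    (hpk : ∀ e : ℕ, 0 < e → e ≤ expo F.fixingSubgroup * finrank ℚ F * n ^ 3 → (p : k) ^ e ≠ 1)
    (hwt : ∀ (U : Submodule k (Fin n → k)) (hU : IsStable (rep ψ T) U),
      Wt ψ w (finrank k U) (detChar (rep ψ T) U hU)) :
    NoIso (rep ψ T) J := by
  classical
  intro U hU hiso
  by_contra hne
  obtain ⟨P, σ, hP, hpP, hσ⟩ := exists_geom hp
  have hN : 0 < expo F.fixingSubgroup := expo_pos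
  have hchip : (chik ψ σ : k) * (p : k) = 1 := chik_frob ψ hp hpℓ hP hpP hσ
  have hpk0 : (p : k) ≠ 0 := right_ne_zero_of_mul_eq_one hchip
  have hdim : finrank k (Fin n → k) = n := finrank_fin_fun k
  have key : ∀ q : GQ ⧸ F.fixingSubgroup, ∃ s : ℕ, 0 < s ∧ s ≤ n ^ 3 ∧
      (detChar (rep ψ T) U hU (zz σ q) : k) ^ 2 * (p : k) ^ (expo F.fixingSubgroup * s) =
        (p : k) ^ (expo F.fixingSubgroup * (w * finrank k U)) := by
    intro q
    obtain ⟨s, g, hs, hg, hrel, hnil, hrk⟩ := hdeg (cj q.out P) (cj_max hP) (cj_nat.2 hpP)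
    obtain ⟨f, m, hf, hfm, τ, hτ, hz⟩ := zz_eq hp hP hpP hσ q hs
    set A : Matrix (Fin n) (Fin n) k := (rep ψ T g : Matrix (Fin n) (Fin n) k) with hA
    set B : Matrix (Fin n) (Fin n) k := (rep ψ T s : Matrix (Fin n) (Fin n) k) with hB
    let M : End k (Fin n → k) := Matrix.toLin' (A - 1)
    let Φ : End k (Fin n → k) := Matrix.toLin' B
    have hM1 : 1 + M = Matrix.toLin' A := by
      show 1 + Matrix.toLin' (A - 1) = _
      rw [map_sub, Matrix.toLin'_one]
      exact add_sub_cancel (1 : End k (Fin n → k)) _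
    have hM1' : ∀ x, (1 + M) x = A.mulVec x := fun x => by rw [hM1]; rfl
    have hq0 : ((p ^ f : ℕ) : k) ≠ 0 := by
      rw [Nat.cast_pow]
      exact pow_ne_zero _ hpk0
    -- the Frobenius element
    have hchi : (chik ψ (s : GQ) : k) * ((p ^ f : ℕ) : k) = 1 := by
      have h1 : IsGeomFrob (p ^ expo F.fixingSubgroup) (cj q.out P) (zz σ q : GQ) :=
        cj_frob (geom_pow hσ _)
      obtain ⟨P', σ', hP', hpP', hσ'⟩ := (⟨cj q.out P, _, cj_max hP, cj_nat.2 hpP,
        cj_frob (x := q.out) hσ⟩ : ∃ (P' : Ideal ZBar) (σ' : GQ), P'.IsMaximal ∧ (p : ZBar) ∈ P' ∧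
          IsGeomFrob p P' σ')
      have h2 : (chik ψ (q.out⁻¹ * σ * q.out) : k) * (p : k) = 1 :=
        chik_frob ψ hp hpℓ (cj_max hP) (cj_nat.2 hpP) (cj_frob hσ)
      have h3 : IsGeomFrob (p ^ f) (cj q.out P) ((q.out⁻¹ * σ * q.out) ^ f) :=
        geom_pow (cj_frob hσ) _
      have h4 : IsGeomFrob (p ^ f) (cj q.out P) (s : GQ) := by rw [← hf]; exact hs
      have h5 := geom_unique (cj_max hP) (pow_ne_zero _ hp.ne_zero) h4 h3
        (fun x y h => frob_inj hp (cj_max hP) (cj_nat.2 hpP) _ x y h)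
      have h6 := chik_inertia ψ hp hpℓ (cj_max hP) (cj_nat.2 hpP) h5
      rw [map_mul, map_inv, map_pow] at h6
      have h7 : chik ψ (s : GQ) = chik ψ (q.out⁻¹ * σ * q.out) ^ f := by
        have h8 := inv_mul_eq_one.1 h6
        exact h8
      rw [h7, Units.val_pow_eq_pow_val, Nat.cast_pow, ← mul_pow, h2, one_pow]
    have hLD : LD M Φ (bf J) (p ^ f) (((p ^ f : ℕ) : k) ^ w) := by
      refine ⟨dist_of hnil hrk, ?_, hq0, pow_ne_zero _ hq0, ?_, ?_, ?_, bf_nd hJdet⟩
      · intro x y hxy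
        have h1 : B.mulVec x = B.mulVec y := hxy
        have h2 := congrArg (fun z => ((rep ψ T s⁻¹ : GL (Fin n) k) :
          Matrix (Fin n) (Fin n) k).mulVec z) h1
        simp only [Matrix.mulVec_mulVec, hB, ← Units.val_mul, ← map_mul, inv_mul_cancel, map_one,
          Units.val_one, Matrix.one_mulVec] at h2
        exact h2
      · rw [hM1]
        show Matrix.toLin' _ ∘ₗ Matrix.toLin' _ = Matrix.toLin' _ ∘ₗ (Matrix.toLin' _) ^ (p ^ f)
        rw [← Matrix.toLin'_pow, ← Matrix.toLin'_mul, ← Matrix.toLin'_mul, hA, hB, ← Units.val_mul,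
          hrel, Units.val_mul, Units.val_pow_eq_pow_val, hf]
      · intro x y
        rw [hM1', hM1']
        have h1 := bf_act (hJ g) x y
        rw [chik_inertia ψ hp hpℓ (cj_max hP) (cj_nat.2 hpP) hg, Units.val_one, one_pow,
          one_mul] at h1
        exact h1
      · intro x y
        have h1 := bf_act (hJ s) x y
        have h2 : ((p ^ f : ℕ) : k) ^ w * (chik ψ (s : GQ) : k) ^ w = 1 := by
          rw [← mul_pow, mul_comm, hchi, one_pow]
        rw [← h1, ← mul_assoc, h2, one_mul]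
        rfl
    obtain ⟨e, he1, he2, he3⟩ := hL k (Fin n → k) M Φ (bf J) (p ^ f) _ hLD U
      (fun x hx => by
        have h1 : M x = A.mulVec x - x := by
          show (Matrix.toLin' (A - 1)) x = _
          rw [map_sub, Matrix.toLin'_one]
          rfl
        rw [h1]
        exact U.sub_mem (hU g x hx) hx)
      (fun x hx => hU s x hx)
    have hdt : dt Φ U = (detChar (rep ψ T) U hU s : k) := by
      have h0 : ∀ x ∈ U, Φ x ∈ U := fun x hx => hU s x hx
      unfold dt
      rw [dif_pos h0]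
      rfl
    refine ⟨e, he3 hiso hne, by rw [hdim] at he1; exact he1, ?_⟩
    have h3 : (detChar (rep ψ T) U hU (zz σ q) : k) = (detChar (rep ψ T) U hU s : k) ^ m := by
      rw [hz, map_mul, det_inertia ψ hT hU hp hpℓ (cj_max hP) (cj_nat.2 hpP) hτ, mul_one, map_pow,
        Units.val_pow_eq_pow_val]
    rw [h3, ← hdt]
    have h4 := congrArg (fun z => z ^ m) he2
    simp only [mul_pow, ← pow_mul] at h4
    have e1 : expo F.fixingSubgroup * e = f * (e * m) := by rw [← hfm]; ring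
    have e2 : expo F.fixingSubgroup * (w * finrank k U) = f * (w * (finrank k U * m)) := by
      rw [← hfm]; ring
    rw [e1, e2, pow_mul (p : k) f, pow_mul (p : k) f, ← Nat.cast_pow, ← pow_mul, mul_comm m 2]
    convert h4 using 2
    ring
  choose s hs0 hsn hs using key
  obtain ⟨A, hA, hA'⟩ := hwt U hU
  have h1 := hA' p hp hpℓ P hP hpP σ hσ
  have h2 : ∏ q : GQ ⧸ F.fixingSubgroup, ((detChar (rep ψ T) U hU (zz σ q) : k) ^ 2 *
      (p : k) ^ (expo F.fixingSubgroup * s q)) =
      ∏ _q : GQ ⧸ F.fixingSubgroup, (p : k) ^ (expo F.fixingSubgroup * (w * finrank k U)) :=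
    Finset.prod_congr rfl fun q _ => hs q
  rw [Finset.prod_mul_distrib, Finset.prod_pow, h1, Finset.prod_const, Finset.card_univ, card_quot,
    Finset.prod_pow_eq_pow_sum, ← pow_mul, ← pow_mul] at h2
  have h3 : expo F.fixingSubgroup * A * 2 =
      expo F.fixingSubgroup * (w * finrank k U) * finrank ℚ F := by
    rw [mul_assoc, hA]; ring
  rw [h3] at h2
  have h4 : (p : k) ^ (∑ q, expo F.fixingSubgroup * s q) = 1 :=
    mul_left_cancel₀ (pow_ne_zero _ hpk0) (h2.trans (mul_one _).symm)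
  refine hpk _ ?_ ?_ h4
  · have hFpos : 0 < finrank ℚ F := Module.finrank_pos
    have hne' : (Finset.univ : Finset (GQ ⧸ F.fixingSubgroup)).Nonempty := by
      rw [← Finset.card_pos, Finset.card_univ, card_quot]
      exact hFpos
    exact Finset.sum_pos (fun q _ => Nat.mul_pos hN (hs0 q)) hne'
  · rw [← Finset.mul_sum, mul_assoc]
    refine Nat.mul_le_mul_left _ ?_
    refine (Finset.sum_le_card_nsmul _ _ (n ^ 3) fun q _ => hsn q).trans ?_
    rw [Finset.card_univ, card_quot, smul_eq_mul]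

end core

end Pool.Agent.NH52.MB
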