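import Pool.Agent.NH52.MB.Stm

/-!
# Project MB: additivity of the trace and semisimplification
-/

set_option autoImplicit false

namespace Pool.Agent.NH52.MB

open Module

theorem t_TRQ : S_TRQ := by
  intro k A _ _ _ X _ _ _ _ _ P a
  have hPf : Module.Finite k P := inferInstanceAs (Module.Finite k (P.restrictScalars k))
  set q : X →ₗ[k] (X ⧸ P) := P.mkQ.restrictScalars k with hq
  set i : P →ₗ[k] X := P.subtype.restrictScalars k with hi
  have hqs : Function.Surjective q := P.mkQ_surjective
  obtain ⟨j, hj⟩ := LinearMap.exists_rightInverse_of_surjective q (LinearMap.range_eq_top.2 hqs)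
  have hjx : ∀ x, q (j x) = x := fun x => LinearMap.congr_fun hj x
  have hker : ∀ x : X, q x = 0 → x ∈ P := fun x hx => (Submodule.Quotient.mk_eq_zero P).1 hx
  have hker' : ∀ x : X, x ∈ P → q x = 0 := fun x hx => (Submodule.Quotient.mk_eq_zero P).2 hx
  have hmem : ∀ x : X, x - j (q x) ∈ P := by
    intro x
    apply hker
    rw [map_sub, hjx, sub_self]
  let π : X →ₗ[k] P :=
    { toFun := fun x => ⟨x - j (q x), hmem x⟩
      map_add' := fun x y => by
        apply Subtype.ext
        show x + y - j (q (x + y)) = (x - j (q x)) + (y - j (q y))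
        rw [map_add, map_add]
        abel
      map_smul' := fun c x => by
        apply Subtype.ext
        show c • x - j (q (c • x)) = c • (x - j (q x))
        rw [map_smul, map_smul, smul_sub] }
  have hπ : ∀ x, (π x : X) = x - j (q x) := fun _ => rfl
  set f : X →ₗ[k] X := Algebra.lsmul k k X a with hf
  have hfx : ∀ x, f x = a • x := fun _ => rfl
  have hsplit : f = (f ∘ₗ i) ∘ₗ π + (f ∘ₗ j) ∘ₗ q := by
    ext x
    rw [LinearMap.add_apply, LinearMap.comp_apply, LinearMap.comp_apply, LinearMap.comp_apply,
      LinearMap.comp_apply, ← map_add]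
    congr 1
    show x = (π x : X) + j (q x)
    rw [hπ, sub_add_cancel]
  have h1 : π ∘ₗ (f ∘ₗ i) = Algebra.lsmul k k P a := by
    ext x
    rw [LinearMap.comp_apply, hπ, LinearMap.comp_apply]
    show a • (x : X) - j (q (a • (x : X))) = a • (x : X)
    rw [hker' _ (P.smul_mem a x.2), map_zero, sub_zero]
  have h2 : q ∘ₗ (f ∘ₗ j) = Algebra.lsmul k k (X ⧸ P) a := by
    apply LinearMap.ext
    intro x
    rw [LinearMap.comp_apply, LinearMap.comp_apply]
    show P.mkQ (a • j x) = a • x
    rw [map_smul]
    congr 1
    exact hjx x
  unfold tr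
  rw [← hf, hsplit, map_add, LinearMap.trace_comp_comm', h1, LinearMap.trace_comp_comm', h2]

theorem fin_quot (k A : Type) [Field k] [Ring A] [Algebra k A] (X : Type) [AddCommGroup X]
    [Module k X] [Module A X] [IsScalarTower k A X] [FiniteDimensional k X] (P : Submodule A X) :
    finrank k P + finrank k (X ⧸ P) = finrank k X := by
  have h1 := Submodule.finrank_quotient_add_finrank (P.restrictScalars k)
  have h2 := (Submodule.Quotient.restrictScalarsEquiv k P).finrank_eq
  rw [h2, add_comm] at h1
  exact h1

theorem ss_prod (A M N : Type) [Ring A] [AddCommGroup M] [AddCommGroup N] [Module A M] [Module A N]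
    [IsSemisimpleModule A M] [IsSemisimpleModule A N] : IsSemisimpleModule A (M × N) := by
  have h1 : IsSemisimpleModule A (LinearMap.range (LinearMap.inl A M N)) :=
    IsSemisimpleModule.congr (LinearEquiv.ofInjective (LinearMap.inl A M N)
      LinearMap.inl_injective).symm
  have h2 : IsSemisimpleModule A (LinearMap.range (LinearMap.inr A M N)) :=
    IsSemisimpleModule.congr (LinearEquiv.ofInjective (LinearMap.inr A M N)
      LinearMap.inr_injective).symm
  have h3 := IsSemisimpleModule.sup h1 h2
  rw [LinearMap.sup_range_inl_inr] at h3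
  exact IsSemisimpleModule.congr Submodule.topEquiv.symm

theorem t_SS : S_SS := by
  intro k A _ _ _
  have key : ∀ (n : ℕ) (X : Type) [AddCommGroup X] [Module k X] [Module A X] [IsScalarTower k A X]
      [FiniteDimensional k X], finrank k X = n →
      ∃ (Y : Type) (_ : AddCommGroup Y) (_ : Module k Y) (_ : Module A Y) (_ : IsScalarTower k A Y)
      (_ : FiniteDimensional k Y) (_ : IsSemisimpleModule A Y), finrank k Y = finrank k X ∧
        ∀ a : A, tr k Y a = tr k X a := by
    intro n
    induction n using Nat.strong_induction_on with
    | _ n ih =>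
      intro X _ _ _ _ _ hn
      rcases subsingleton_or_nontrivial X with hX | hX
      · have hss : IsSemisimpleModule A X :=
          (isSemisimpleModule_iff A X).mpr Subsingleton.instComplementedLattice
        exact ⟨X, inferInstance, inferInstance, inferInstance, inferInstance, inferInstance,
          hss, rfl, fun _ => rfl⟩
      · have : IsArtinian A X := isArtinian_of_tower k inferInstance
        obtain ⟨P, hP⟩ : ∃ P : Submodule A X, IsAtom P := IsAtomic.exists_atom _
        have hs : IsSimpleModule A P := isSimpleModule_iff_isAtom.2 hP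
        have hPf : Module.Finite k P := inferInstanceAs (Module.Finite k (P.restrictScalars k))
        have hf := fin_quot k A X P
        have hpos : 0 < finrank k P := by
          have : Nontrivial P := (Submodule.nontrivial_iff_ne_bot).2 hP.1
          exact Module.finrank_pos
        obtain ⟨Y, i1, i2, i3, i4, i5, i6, hY, hY'⟩ := ih (finrank k (X ⧸ P)) (by omega) (X ⧸ P) rfl
        have hss : IsSemisimpleModule A (P × Y) := ss_prod A P Y
        refine ⟨P × Y, inferInstance, inferInstance, inferInstance, inferInstance, inferInstance,
          hss, ?_, fun a => ?_⟩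
        · rw [Module.finrank_prod, hY, hf]
        · rw [t_TRQ k A X P a, ← hY' a]
          unfold tr
          have h : Algebra.lsmul k k (P × Y) a =
              (Algebra.lsmul k k P a).prodMap (Algebra.lsmul k k Y a) := by
            ext x <;> rfl
          rw [h, LinearMap.trace_prodMap']
  intro X _ _ _ _ _
  exact key _ X rfl

end Pool.Agent.NH52.MB
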