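import Pool.Agent.NH52.MB.Stm

/-!
# Project MB, MB-7: transfer of the absence of isotropic stable subspaces
-/

set_option autoImplicit false
set_option linter.unusedSectionVars false

namespace Pool.Agent.NH52.MB

open Module
open scoped MonoidAlgebra

namespace TransH

section abstr

variable {k A : Type} [Field k] [Ring A] [Algebra k A]
variable {M N : Type} [AddCommGroup M] [Module k M] [Module A M] [IsScalarTower k A M]
  [AddCommGroup N] [Module k N] [Module A N] [IsScalarTower k A N]

theorem tr_congr (e : M ≃ₗ[A] N) (a : A) : tr k M a = tr k N a := by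
  unfold tr
  have h : Algebra.lsmul k k N a = (e.restrictScalars k).conj (Algebra.lsmul k k M a) := by
    ext x
    rw [LinearEquiv.conj_apply_apply]
    show a • x = e (a • e.symm x)
    rw [map_smul, e.apply_symm_apply]
  rw [h, LinearMap.trace_conj']

theorem tr_prod [FiniteDimensional k M] [FiniteDimensional k N] (a : A) :
    tr k (M × N) a = tr k M a + tr k N a := by
  unfold tr
  have h : Algebra.lsmul k k (M × N) a =
      (Algebra.lsmul k k M a).prodMap (Algebra.lsmul k k N a) := by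
    ext x <;> rfl
  rw [h, LinearMap.trace_prodMap']

theorem ss_prod [IsSemisimpleModule A M] [IsSemisimpleModule A N] :
    IsSemisimpleModule A (M × N) := by
  have h1 : IsSemisimpleModule A (LinearMap.range (LinearMap.inl A M N)) :=
    IsSemisimpleModule.congr (LinearEquiv.ofInjective (LinearMap.inl A M N)
      LinearMap.inl_injective).symm
  have h2 : IsSemisimpleModule A (LinearMap.range (LinearMap.inr A M N)) :=
    IsSemisimpleModule.congr (LinearEquiv.ofInjective (LinearMap.inr A M N)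
      LinearMap.inr_injective).symm
  have h3 := IsSemisimpleModule.sup h1 h2
  rw [LinearMap.sup_range_inl_inr] at h3
  exact IsSemisimpleModule.congr Submodule.topEquiv.symm

theorem fd_sub [FiniteDimensional k M] (P : Submodule A M) : FiniteDimensional k P :=
  FiniteDimensional.of_injective (P.subtype.restrictScalars k) P.subtype_injective

theorem fd_quot [FiniteDimensional k M] (P : Submodule A M) : FiniteDimensional k (M ⧸ P) :=
  Module.Finite.of_surjective (P.mkQ.restrictScalars k) P.mkQ_surjective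

theorem finrank_quot [FiniteDimensional k M] (P : Submodule A M) :
    finrank k P + finrank k (M ⧸ P) = finrank k M := by
  have h := LinearMap.finrank_range_add_finrank_ker (P.mkQ.restrictScalars k)
  have h1 : LinearMap.range (P.mkQ.restrictScalars k) = ⊤ :=
    LinearMap.range_eq_top.2 P.mkQ_surjective
  have h2 : LinearMap.ker (P.mkQ.restrictScalars k) = P.restrictScalars k := by
    ext x
    rw [LinearMap.mem_ker, LinearMap.restrictScalars_apply, Submodule.mkQ_apply,
      Submodule.Quotient.mk_eq_zero, Submodule.restrictScalars_mem]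
  rw [h1, finrank_top, h2] at h
  have h3 : finrank k (P.restrictScalars k) = finrank k P := rfl
  rw [h3] at h
  omega

end abstr

section form

variable {G k : Type} [Group G] [Field k] {n : ℕ}

/-- the form -/
def fm (J : Matrix (Fin n) (Fin n) k) (x y : Fin n → k) : k := dotProduct x (J.mulVec y)

theorem fm_add_left (J : Matrix (Fin n) (Fin n) k) (x x' y : Fin n → k) :
    fm J (x + x') y = fm J x y + fm J x' y := add_dotProduct _ _ _

theorem fm_smul_left (J : Matrix (Fin n) (Fin n) k) (t : k) (x y : Fin n → k) :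
    fm J (t • x) y = t * fm J x y := smul_dotProduct _ _ _

theorem fm_add_right (J : Matrix (Fin n) (Fin n) k) (x y y' : Fin n → k) :
    fm J x (y + y') = fm J x y + fm J x y' := by
  unfold fm
  rw [Matrix.mulVec_add, dotProduct_add]

theorem fm_smul_right (J : Matrix (Fin n) (Fin n) k) (t : k) (x y : Fin n → k) :
    fm J x (t • y) = t * fm J x y := by
  unfold fm
  rw [Matrix.mulVec_smul, dotProduct_smul, smul_eq_mul]

theorem fm_zero_right (J : Matrix (Fin n) (Fin n) k) (x : Fin n → k) : fm J x 0 = 0 := by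
  unfold fm
  rw [Matrix.mulVec_zero, dotProduct_zero]

theorem fm_g {ρ : G →* GL (Fin n) k} {J : Matrix (Fin n) (Fin n) k} {c : G → k}
    (hc : ∀ g, c g • ((ρ g : Matrix (Fin n) (Fin n) k).transpose * J * ρ g) = J) (g : G)
    (x y : Fin n → k) :
    c g * fm J ((ρ g : Matrix (Fin n) (Fin n) k).mulVec x)
      ((ρ g : Matrix (Fin n) (Fin n) k).mulVec y) = fm J x y := by
  unfold fm
  symm
  conv_lhs => rw [← hc g]
  rw [Matrix.smul_mulVec, dotProduct_smul, smul_eq_mul, ← Matrix.mulVec_mulVec,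
    ← Matrix.mulVec_mulVec, Matrix.dotProduct_mulVec x, Matrix.vecMul_transpose]

theorem c_ne {ρ : G →* GL (Fin n) k} {J : Matrix (Fin n) (Fin n) k} {c : G → k} (hn : n ≠ 0)
    (hJ : J.det ≠ 0)
    (hc : ∀ g, c g • ((ρ g : Matrix (Fin n) (Fin n) k).transpose * J * ρ g) = J) (g : G) :
    c g ≠ 0 := by
  intro h0
  have h1 := hc g
  rw [h0, zero_smul] at h1
  apply hJ
  have : Nonempty (Fin n) := ⟨⟨0, Nat.pos_of_ne_zero hn⟩⟩
  rw [← h1, Matrix.det_zero]

theorem fm_surj {J : Matrix (Fin n) (Fin n) k} (hJ : J.det ≠ 0) (f : (Fin n → k) →ₗ[k] k) :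
    ∃ x, ∀ u, fm J u x = f u := by
  refine ⟨J⁻¹.mulVec (fun i => f (fun j => if i = j then 1 else 0)), fun u => ?_⟩
  unfold fm
  rw [Matrix.mulVec_mulVec, Matrix.mul_nonsing_inv _ (isUnit_iff_ne_zero.2 hJ), Matrix.one_mulVec,
    LinearMap.pi_apply_eq_sum_univ f u]
  rfl

theorem mulVec_inv (ρ : G →* GL (Fin n) k) (g : G) (x : Fin n → k) :
    (ρ g : Matrix (Fin n) (Fin n) k).mulVec ((ρ g⁻¹ : Matrix (Fin n) (Fin n) k).mulVec x) = x := by
  rw [Matrix.mulVec_mulVec, ← Units.val_mul, ← map_mul, mul_inv_cancel, map_one, Units.val_one,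
    Matrix.one_mulVec]

/-- the orthogonal complement -/
def orth (J : Matrix (Fin n) (Fin n) k) (U : Submodule k (Fin n → k)) :
    Submodule k (Fin n → k) where
  carrier := {x | ∀ u ∈ U, fm J u x = 0}
  add_mem' := fun {a b} ha hb u hu => by rw [fm_add_right, ha u hu, hb u hu, add_zero]
  zero_mem' := fun u _ => fm_zero_right J u
  smul_mem' := fun t x hx u hu => by rw [fm_smul_right, hx u hu, mul_zero]

theorem mem_orth {J : Matrix (Fin n) (Fin n) k} {U : Submodule k (Fin n → k)} {x : Fin n → k} :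
    x ∈ orth J U ↔ ∀ u ∈ U, fm J u x = 0 := Iff.rfl

theorem orth_stb {ρ : G →* GL (Fin n) k} {J : Matrix (Fin n) (Fin n) k} {c : G → k}
    (hc : ∀ g, c g • ((ρ g : Matrix (Fin n) (Fin n) k).transpose * J * ρ g) = J)
    (hc0 : ∀ g, c g ≠ 0) {U : Submodule k (Fin n → k)} (hU : Stb ρ U) : Stb ρ (orth J U) := by
  intro g x hx u hu
  have h1 := fm_g hc g ((ρ g⁻¹ : Matrix (Fin n) (Fin n) k).mulVec u) x
  rw [mulVec_inv, hx _ (hU g⁻¹ u hu)] at h1
  exact (mul_eq_zero.1 h1).resolve_left (hc0 g)

theorem inf_orth {ρ : G →* GL (Fin n) k} {J : Matrix (Fin n) (Fin n) k} {c : G → k}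
    (hc : ∀ g, c g • ((ρ g : Matrix (Fin n) (Fin n) k).transpose * J * ρ g) = J)
    (hc0 : ∀ g, c g ≠ 0) (hn : NoIs ρ J) {U : Submodule k (Fin n → k)} (hU : Stb ρ U) :
    U ⊓ orth J U = ⊥ := by
  refine hn _ (fun g x hx => ?_) (fun x hx y hy => ?_)
  · rw [Submodule.mem_inf] at hx ⊢
    exact ⟨hU g x hx.1, orth_stb hc hc0 hU g x hx.2⟩
  · rw [Submodule.mem_inf] at hx hy
    exact hy.2 x hx.1

/-- the pairing with the elements of a subspace -/
def pr (J : Matrix (Fin n) (Fin n) k) (U : Submodule k (Fin n → k)) :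
    (Fin n → k) →ₗ[k] (U →ₗ[k] k) where
  toFun x :=
    { toFun := fun u => fm J (u : Fin n → k) x
      map_add' := fun u v => fm_add_left J _ _ _
      map_smul' := fun t u => fm_smul_left J t _ _ }
  map_add' x y := by
    ext u
    exact fm_add_right J _ _ _
  map_smul' t x := by
    ext u
    exact fm_smul_right J t _ _

theorem isCompl_orth {ρ : G →* GL (Fin n) k} {J : Matrix (Fin n) (Fin n) k} {c : G → k}
    (hc : ∀ g, c g • ((ρ g : Matrix (Fin n) (Fin n) k).transpose * J * ρ g) = J)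
    (hc0 : ∀ g, c g ≠ 0) (hn : NoIs ρ J) {U : Submodule k (Fin n → k)} (hU : Stb ρ U) :
    IsCompl U (orth J U) := by
  have h1 := inf_orth hc hc0 hn hU
  refine ⟨disjoint_iff.2 h1, ?_⟩
  rw [codisjoint_iff]
  apply Submodule.eq_top_of_finrank_eq
  have h2 := Submodule.finrank_sup_add_finrank_inf_eq U (orth J U)
  rw [h1, finrank_bot, add_zero] at h2
  refine le_antisymm (Submodule.finrank_le _) ?_
  rw [h2]
  have hker : LinearMap.ker (pr J U) = orth J U := by
    ext x
    rw [LinearMap.mem_ker, mem_orth]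
    constructor
    · intro hx u hu
      exact LinearMap.congr_fun hx ⟨u, hu⟩
    · intro hx
      ext u
      exact hx u.1 u.2
  have h3 := LinearMap.finrank_range_add_finrank_ker (pr J U)
  rw [hker] at h3
  have h4 : finrank k (LinearMap.range (pr J U)) ≤ finrank k U := by
    refine (Submodule.finrank_le _).trans (le_of_eq ?_)
    exact Subspace.dual_finrank_eq
  omega

end form

section rep

variable {G k : Type} [Group G] [Field k] {n : ℕ}

/-- the module of the representation -/
def Md (_ : G →* GL (Fin n) k) : Type := Fin n → k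

noncomputable instance (ρ : G →* GL (Fin n) k) : AddCommGroup (Md ρ) :=
  inferInstanceAs (AddCommGroup (Fin n → k))

noncomputable instance (ρ : G →* GL (Fin n) k) : Module k (Md ρ) :=
  inferInstanceAs (Module k (Fin n → k))

instance (ρ : G →* GL (Fin n) k) : FiniteDimensional k (Md ρ) :=
  inferInstanceAs (FiniteDimensional k (Fin n → k))

/-- the endomorphism of an element -/
noncomputable def ed (ρ : G →* GL (Fin n) k) (g : G) : Module.End k (Md ρ) :=
  (Matrix.toLin' (ρ g : Matrix (Fin n) (Fin n) k) : (Fin n → k) →ₗ[k] (Fin n → k))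

/-- the representation on the space of the column vectors -/
noncomputable def rp (ρ : G →* GL (Fin n) k) : G →* Module.End k (Md ρ) where
  toFun g := ed ρ g
  map_one' := by unfold ed; rw [map_one, Units.val_one, Matrix.toLin'_one]; rfl
  map_mul' g h := by unfold ed; rw [map_mul, Units.val_mul, Matrix.toLin'_mul]; rfl

/-- the action of the group algebra -/
noncomputable def alg (ρ : G →* GL (Fin n) k) : k[G] →ₐ[k] Module.End k (Md ρ) :=
  MonoidAlgebra.lift k (Module.End k (Md ρ)) G (rp ρ)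

noncomputable instance (ρ : G →* GL (Fin n) k) : Module k[G] (Md ρ) :=
  Module.compHom (Md ρ) (alg ρ).toRingHom

theorem alg_smul (ρ : G →* GL (Fin n) k) (a : k[G]) (x : Md ρ) : a • x = alg ρ a x := rfl

instance (ρ : G →* GL (Fin n) k) : IsScalarTower k k[G] (Md ρ) where
  smul_assoc t a x := by
    rw [alg_smul, alg_smul, map_smul]
    rfl

theorem alg_single (ρ : G →* GL (Fin n) k) (g : G) (t : k) :
    alg ρ (MonoidAlgebra.single g t) = t • ed ρ g :=
  MonoidAlgebra.lift_single (rp ρ) g t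

/-- the element as a vector -/
def vc {ρ : G →* GL (Fin n) k} (x : Md ρ) : Fin n → k := x

theorem single_smul' (ρ : G →* GL (Fin n) k) (g : G) (t : k) (x : Md ρ) :
    vc (MonoidAlgebra.single g t • x) =
      t • (ρ g : Matrix (Fin n) (Fin n) k).mulVec (vc x) := by
  rw [alg_smul, alg_single]
  rfl

theorem g_smul (ρ : G →* GL (Fin n) k) (g : G) (x : Md ρ) :
    vc (MonoidAlgebra.single g (1 : k) • x) = (ρ g : Matrix (Fin n) (Fin n) k).mulVec (vc x) := by
  rw [single_smul', one_smul]

theorem tr_md {ρ ρ' : G →* GL (Fin n) k}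
    (ht : ∀ g, (ρ g : Matrix (Fin n) (Fin n) k).trace = (ρ' g : Matrix (Fin n) (Fin n) k).trace)
    (a : k[G]) : tr k (Md ρ) a = tr k (Md ρ') a := by
  have key : ∀ (ρ : G →* GL (Fin n) k) (g : G) (t : k),
      tr k (Md ρ) (MonoidAlgebra.single g t) =
        t * (ρ g : Matrix (Fin n) (Fin n) k).trace := by
    intro ρ g t
    unfold tr
    have h1 : Algebra.lsmul k k (Md ρ) (MonoidAlgebra.single g t) = t • ed ρ g := by
      rw [← alg_single]
      rfl
    rw [h1]
    have h2 : LinearMap.trace k (Fin n → k) (t • (Matrix.toLin'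
        (ρ g : Matrix (Fin n) (Fin n) k))) = t * (ρ g : Matrix (Fin n) (Fin n) k).trace := by
      rw [map_smul, Matrix.trace_toLin'_eq, smul_eq_mul]
    exact h2
  induction a using MonoidAlgebra.induction_linear with
  | zero => unfold tr; simp
  | add x y hx hy =>
    have hadd : ∀ ρ : G →* GL (Fin n) k, tr k (Md ρ) (x + y) =
        tr k (Md ρ) x + tr k (Md ρ) y := by
      intro ρ
      unfold tr
      rw [map_add, map_add]
    rw [hadd, hadd, hx, hy]
  | single g t => rw [key, key, ht]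

/-- stable subspaces are submodules -/
noncomputable def toA (ρ : G →* GL (Fin n) k) (W : Submodule k (Fin n → k)) (h : Stb ρ W) :
    Submodule k[G] (Md ρ) where
  carrier := {x | vc x ∈ W}
  add_mem' := fun ha hb => W.add_mem ha hb
  zero_mem' := W.zero_mem
  smul_mem' := by
    intro a x hx
    induction a using MonoidAlgebra.induction_linear with
    | zero => rw [zero_smul]; exact W.zero_mem
    | add a b ha hb => rw [add_smul]; exact W.add_mem ha hb
    | single g t =>
      change vc (MonoidAlgebra.single g t • x) ∈ W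
      rw [single_smul']
      exact W.smul_mem t (h g _ hx)

theorem mem_toA {ρ : G →* GL (Fin n) k} {W : Submodule k (Fin n → k)} {h : Stb ρ W} {x : Md ρ} :
    x ∈ toA ρ W h ↔ vc x ∈ W := Iff.rfl

/-- submodules are stable subspaces -/
noncomputable def ofA {ρ : G →* GL (Fin n) k} (N : Submodule k[G] (Md ρ)) : Submodule k (Fin n → k) :=
  (N.restrictScalars k : Submodule k (Md ρ))

theorem mem_ofA {ρ : G →* GL (Fin n) k} {N : Submodule k[G] (Md ρ)} {x : Md ρ} :
    vc x ∈ ofA N ↔ x ∈ N := Iff.rfl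

/-- the vector as an element -/
def el (ρ : G →* GL (Fin n) k) (u : Fin n → k) : Md ρ := u

theorem ofA_stb {ρ : G →* GL (Fin n) k} (N : Submodule k[G] (Md ρ)) : Stb ρ (ofA N) := by
  intro g u hu
  have h := N.smul_mem (MonoidAlgebra.single g (1 : k)) (x := el ρ u) hu
  have h2 := g_smul ρ g (el ρ u)
  change vc (MonoidAlgebra.single g (1 : k) • el ρ u) ∈ ofA N at h
  rw [h2] at h
  exact h

theorem ss_md {ρ : G →* GL (Fin n) k} {J : Matrix (Fin n) (Fin n) k} {c : G → k}
    (hc : ∀ g, c g • ((ρ g : Matrix (Fin n) (Fin n) k).transpose * J * ρ g) = J)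
    (hc0 : ∀ g, c g ≠ 0) (hn : NoIs ρ J) : IsSemisimpleModule k[G] (Md ρ) := by
  refine { exists_isCompl := fun N => ?_ }
  have h1 := isCompl_orth hc hc0 hn (ofA_stb N)
  refine ⟨toA ρ (orth J (ofA N)) (orth_stb hc hc0 (ofA_stb N)), ?_, ?_⟩
  · rw [disjoint_iff, eq_bot_iff]
    intro x hx
    rw [Submodule.mem_inf, mem_toA] at hx
    have h2 := h1.disjoint.eq_bot
    have h3 : vc x ∈ ofA N ⊓ orth J (ofA N) := ⟨hx.1, hx.2⟩
    rw [h2] at h3
    exact h3
  · rw [codisjoint_iff, eq_top_iff]
    intro x _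
    have h2 := h1.codisjoint.eq_top
    have h3 : vc x ∈ ofA N ⊔ orth J (ofA N) := by rw [h2]; exact Submodule.mem_top
    obtain ⟨y, hy, z, hz, e⟩ := Submodule.mem_sup.1 h3
    exact Submodule.mem_sup.2 ⟨y, hy, z, hz, e⟩

end rep

end TransH

open TransH

/-- (MB-7) -/
theorem t_TRANS (h1 : S_TRQ) (h2 : S_SS) (h3 : S_BNL) : S_TRANS := by
  classical
  intro k G _ _ n hchar ρ₀ ρ J₀ J c hJ₀ hJ hc₀ hc htr hn₀ hMF I hI hiso
  by_contra hI0
  have hn : n ≠ 0 := by
    rintro rfl
    exact hI0 (Subsingleton.elim _ _)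
  have hc0 : ∀ g, c g ≠ 0 := c_ne hn hJ hc
  -- the modules
  have hss : IsSemisimpleModule k[G] (Md ρ₀) := ss_md hc₀ hc0 hn₀
  have hfX : finrank k (Md ρ) = n := by
    have : finrank k (Fin n → k) = n := by simp
    exact this
  have hfX₀ : finrank k (Md ρ₀) = n := by
    have : finrank k (Fin n → k) = n := by simp
    exact this
  have hart : IsArtinian k[G] (Md ρ) := isArtinian_of_tower k inferInstance
  obtain ⟨U, hU, hUI⟩ : ∃ U : Submodule k[G] (Md ρ), IsAtom U ∧ U ≤ toA ρ I hI := by
    rcases IsAtomic.eq_bot_or_exists_atom_le (toA ρ I hI) with h | h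
    · exfalso
      apply hI0
      rw [eq_bot_iff]
      intro x hx
      have hx' : el ρ x ∈ toA ρ I hI := hx
      rw [h] at hx'
      exact hx'
    · exact h
  have hUs : IsSimpleModule k[G] U := isSimpleModule_iff_isAtom.2 hU
  have hUfd : FiniteDimensional k U := fd_sub U
  have hUiso : ∀ u ∈ U, ∀ v ∈ U, fm J (vc u) (vc v) = 0 := fun u hu v hv =>
    hiso _ (hUI hu) _ (hUI hv)
  have hqfd : FiniteDimensional k (Md ρ ⧸ U) := fd_quot U
  -- the first decomposition
  obtain ⟨Y, _, _, _, _, _, _, hYf, hYt⟩ := h2 k k[G] (Md ρ ⧸ U)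
  have hss1 : IsSemisimpleModule k[G] (U × Y) := ss_prod
  have hf1 : finrank k (Md ρ₀) = finrank k (U × Y) := by
    rw [finrank_prod, hYf, finrank_quot, hfX, hfX₀]
  obtain ⟨φ0⟩ := h3 k k[G] (Md ρ₀) (U × Y) (fun m h h' => hchar m h (by rwa [hfX₀] at h')) hf1
    (fun a => by
      rw [tr_prod, hYt, ← h1 k k[G] (Md ρ) U a]
      exact tr_md htr a)
  let i0 : U →ₗ[k[G]] Md ρ₀ := φ0.symm.toLinearMap.comp (LinearMap.inl k[G] U Y)
  have hi0 : Function.Injective i0 := φ0.symm.injective.comp LinearMap.inl_injective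
  -- the pairings
  let B0 : U →ₗ[k] (U →ₗ[k] k) :=
    { toFun := fun v =>
        { toFun := fun u => fm J₀ (vc (i0 u)) (vc (i0 v))
          map_add' := fun u u' => by
            rw [map_add]; exact fm_add_left J₀ _ _ _
          map_smul' := fun t u => by
            rw [i0.map_smul_of_tower t u]; exact fm_smul_left J₀ t _ _ }
      map_add' := fun v v' => by
        ext u
        show fm J₀ (vc (i0 u)) (vc (i0 (v + v'))) = _
        rw [map_add]; exact fm_add_right J₀ _ _ _
      map_smul' := fun t v => by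
        ext u
        show fm J₀ (vc (i0 u)) (vc (i0 (t • v))) = _
        rw [i0.map_smul_of_tower t v]; exact fm_smul_right J₀ t _ _ }
  have hB0i : Function.Injective B0 := by
    rw [injective_iff_map_eq_zero]
    intro v hv
    have hm : vc (i0 v) ∈ ofA (LinearMap.range i0) ⊓ orth J₀ (ofA (LinearMap.range i0)) := by
      refine ⟨⟨v, rfl⟩, ?_⟩
      rintro _ ⟨u, rfl⟩
      exact LinearMap.congr_fun hv u
    rw [inf_orth hc₀ hc0 hn₀ (ofA_stb _)] at hm
    have h0 : i0 v = 0 := hm
    exact hi0 (h0.trans (map_zero i0).symm)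
  let B0e : U ≃ₗ[k] (U →ₗ[k] k) :=
    LinearMap.linearEquivOfInjective B0 hB0i (Subspace.dual_finrank_eq).symm
  let B : Md ρ →ₗ[k] (U →ₗ[k] k) :=
    { toFun := fun x =>
        { toFun := fun u => fm J (vc (u : Md ρ)) (vc x)
          map_add' := fun u u' => fm_add_left J _ _ _
          map_smul' := fun t u => fm_smul_left J t _ _ }
      map_add' := fun x x' => by
        ext u
        exact fm_add_right J _ _ _
      map_smul' := fun t x => by
        ext u
        exact fm_smul_right J t _ _ }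
  have hBs : Function.Surjective B := by
    intro f
    obtain ⟨f', hf'⟩ := LinearMap.exists_extend (p := U.restrictScalars k) f
    obtain ⟨x, hx⟩ := fm_surj hJ f'
    refine ⟨el ρ x, ?_⟩
    ext u
    change fm J (vc (u : Md ρ)) x = f u
    rw [hx, ← hf']
    rfl
  let Lk : Md ρ →ₗ[k] U := B0e.symm.toLinearMap.comp B
  have hLk : ∀ (x : Md ρ) (u : U), fm J₀ (vc (i0 u)) (vc (i0 (Lk x))) = fm J (vc (u : Md ρ)) (vc x) := by
    intro x u
    have e : B0e (Lk x) = B x := B0e.apply_symm_apply (B x)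
    exact LinearMap.congr_fun e u
  have hLe : ∀ (g : G) (x : Md ρ), Lk (MonoidAlgebra.single g (1 : k) • x) =
      MonoidAlgebra.single g (1 : k) • Lk x := by
    intro g x
    apply hB0i
    ext u
    change fm J₀ (vc (i0 u)) (vc (i0 (Lk (MonoidAlgebra.single g (1 : k) • x)))) =
      fm J₀ (vc (i0 u)) (vc (i0 (MonoidAlgebra.single g (1 : k) • Lk x)))
    rw [hLk, map_smul, g_smul, g_smul]
    set u' : U := MonoidAlgebra.single g⁻¹ (1 : k) • u with hu'
    have eu : u = MonoidAlgebra.single g (1 : k) • u' := by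
      rw [hu', smul_smul, MonoidAlgebra.single_mul_single, mul_inv_cancel, mul_one]
      exact (one_smul _ u).symm
    have e1 : vc (i0 u) = (ρ₀ g : Matrix (Fin n) (Fin n) k).mulVec (vc (i0 u')) := by
      rw [← g_smul, ← map_smul, ← eu]
    have e2 : vc (u : Md ρ) = (ρ g : Matrix (Fin n) (Fin n) k).mulVec (vc (u' : Md ρ)) := by
      rw [← g_smul]
      conv_lhs => rw [eu]
      rfl
    have k1 := fm_g hc g (vc (u' : Md ρ)) (vc x)
    have k2 := fm_g hc₀ g (vc (i0 u')) (vc (i0 (Lk x)))
    rw [e1, e2]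
    apply mul_left_cancel₀ (hc0 g)
    rw [k1, k2, hLk]
  let L : Md ρ →ₗ[k[G]] U := MonoidAlgebra.equivariantOfLinearOfComm Lk hLe
  have hLs : Function.Surjective L := B0e.symm.surjective.comp hBs
  have hUL : U ≤ LinearMap.ker L := by
    intro u hu
    rw [LinearMap.mem_ker]
    apply hB0i
    ext v
    change fm J₀ (vc (i0 v)) (vc (i0 (Lk u))) = _
    rw [hLk, hUiso _ v.2 _ hu, map_zero]
    rfl
  -- the second decomposition
  let P : Submodule k[G] (Md ρ) := LinearMap.ker L
  have hPfd : FiniteDimensional k P := fd_sub P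
  have eP : (Md ρ ⧸ P) ≃ₗ[k[G]] U := L.quotKerEquivOfSurjective hLs
  let U' : Submodule k[G] P := Submodule.comap P.subtype U
  have eU : U' ≃ₗ[k[G]] U := Submodule.comapSubtypeEquivOfLe hUL
  have hU'fd : FiniteDimensional k (P ⧸ U') := fd_quot U'
  obtain ⟨Z, _, _, _, _, _, _, hZf, hZt⟩ := h2 k k[G] (P ⧸ U')
  have hss2 : IsSemisimpleModule k[G] (Z × U) := ss_prod
  have hss3 : IsSemisimpleModule k[G] (U × (Z × U)) := ss_prod
  have hf2 : finrank k (Md ρ₀) = finrank k (U × (Z × U)) := by
    have q1 := finrank_quot (k := k) P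
    have q2 := finrank_quot (k := k) U'
    have q3 : finrank k (Md ρ ⧸ P) = finrank k U := (eP.restrictScalars k).finrank_eq
    have q4 : finrank k U' = finrank k U := (eU.restrictScalars k).finrank_eq
    rw [finrank_prod, finrank_prod, hZf, hfX₀]
    rw [hfX] at q1
    omega
  obtain ⟨φ⟩ := h3 k k[G] (Md ρ₀) (U × (Z × U)) (fun m h h' => hchar m h (by rwa [hfX₀] at h')) hf2
    (fun a => by
      rw [tr_prod, tr_prod, hZt]
      have t1 := h1 k k[G] (Md ρ) P a
      have t2 := h1 k k[G] P U' a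
      have t3 := tr_congr (k := k) eP a
      have t4 := tr_congr (k := k) (M := U') (N := U) eU a
      have t5 := tr_md htr a
      rw [t5, t1, t2, t3, t4]
      ring)
  let j1 : U →ₗ[k[G]] Md ρ₀ := φ.symm.toLinearMap.comp (LinearMap.inl k[G] U (Z × U))
  let j2 : U →ₗ[k[G]] Md ρ₀ := φ.symm.toLinearMap.comp
    ((LinearMap.inr k[G] U (Z × U)).comp (LinearMap.inr k[G] Z U))
  have hj1 : Function.Injective j1 := φ.symm.injective.comp LinearMap.inl_injective
  have hj2 : Function.Injective j2 :=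
    φ.symm.injective.comp (LinearMap.inr_injective.comp LinearMap.inr_injective)
  let e1 : U ≃ₗ[k[G]] LinearMap.range j1 := LinearEquiv.ofInjective j1 hj1
  let f0 : LinearMap.range j1 →ₗ[k] Md ρ₀ := (j2.comp e1.symm.toLinearMap).restrictScalars k
  let f : ofA (LinearMap.range j1) →ₗ[k] (Fin n → k) :=
    { toFun := fun w => vc (f0 ⟨el ρ₀ w.1, w.2⟩)
      map_add' := fun w w' => f0.map_add ⟨el ρ₀ w.1, w.2⟩ ⟨el ρ₀ w'.1, w'.2⟩
      map_smul' := fun t w => f0.map_smul t ⟨el ρ₀ w.1, w.2⟩ }
  have hfa : ∀ a : U, ∀ w : ofA (LinearMap.range j1), el ρ₀ w.1 = j1 a → f w = vc (j2 a) := by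
    intro a w hw
    have : e1.symm ⟨el ρ₀ w.1, w.2⟩ = a := by
      rw [LinearEquiv.symm_apply_eq]
      exact Subtype.ext hw
    change vc (j2 (e1.symm ⟨el ρ₀ w.1, w.2⟩)) = _
    rw [this]
  have hfi : Function.Injective f := by
    intro w w' h
    obtain ⟨a, ha⟩ := w.2
    obtain ⟨a', ha'⟩ := w'.2
    rw [hfa a w ha.symm, hfa a' w' ha'.symm] at h
    have : a = a' := hj2 h
    subst this
    exact Subtype.ext (ha.symm.trans ha')
  have hfe : ∀ (g : G) (x y : ofA (LinearMap.range j1)),
      (y : Fin n → k) = (ρ₀ g : Matrix (Fin n) (Fin n) k).mulVec x →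
        f y = (ρ₀ g : Matrix (Fin n) (Fin n) k).mulVec (f x) := by
    intro g x y hxy
    obtain ⟨a, ha⟩ := x.2
    rw [hfa a x ha.symm, hfa (MonoidAlgebra.single g (1 : k) • a) y, map_smul, g_smul]
    rw [map_smul, ha]
    exact hxy.trans (g_smul ρ₀ g (el ρ₀ x.1)).symm
  have hinf : ofA (LinearMap.range j1) ⊓ LinearMap.range f = ⊥ := by
    rw [eq_bot_iff]
    rintro w ⟨⟨a, ha⟩, ⟨x, hx⟩⟩
    obtain ⟨b, hb⟩ := x.2
    rw [hfa b x hb.symm] at hx
    have h5 : j1 a = j2 b := ha.trans hx.symm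
    have h6 := φ.symm.injective h5
    have h7 : a = 0 := congrArg Prod.fst h6
    rw [Submodule.mem_bot, ← ha, h7]
    exact map_zero j1
  have hbot := hMF (ofA (LinearMap.range j1)) (ofA_stb _) f hfi hfe hinf
  apply hU.1
  rw [eq_bot_iff]
  intro u hu
  have h8 : vc (j1 ⟨u, hu⟩) ∈ ofA (LinearMap.range j1) := ⟨_, rfl⟩
  rw [hbot] at h8
  have h9 : j1 ⟨u, hu⟩ = 0 := h8
  have h10 : (⟨u, hu⟩ : U) = 0 := hj1 (h9.trans (map_zero j1).symm)
  exact congrArg Subtype.val h10

end Pool.Agent.NH52.MB
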