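import Pool.Agent.NH52.MB.Ss
import Pool.Agent.NH52.MB.Bnl
import Pool.Agent.NH52.MB.Trans

/-!
# Transfer of the absence of isotropic stable subspaces, assembled
-/

set_option autoImplicit false

namespace Pool.Agent.NH52.MB

theorem t_TRANS' : S_TRANS := t_TRANS t_TRQ t_SS t_BNL

end Pool.Agent.NH52.MB
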